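import Pool.Agent.W124.ITM.Defs

set_option autoImplicit false

namespace Pool.Agent.W124.ITM

open SimpleGraph

variable {W U V : Type}

theorem sub_some_some {H : SimpleGraph W} {u v a b : W} :
    (subdivideEdge H u v).Adj (some a) (some b) ↔ (H.Adj a b ∧ s(a, b) ≠ s(u, v)) := by
  unfold subdivideEdge
  simp only [SimpleGraph.fromRel_adj, ne_eq, Option.some.injEq, reduceCtorEq, false_and, or_false]
  constructor
  · rintro ⟨h, ⟨a', b', h1, h2, h3, h4⟩ | ⟨a', b', h1, h2, h3, h4⟩⟩
    · subst h1 h2; exact ⟨h3, h4⟩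
    · subst h1 h2; exact ⟨h3.symm, by rwa [Sym2.eq_swap]⟩
  · rintro ⟨h3, h4⟩
    exact ⟨h3.ne, Or.inl ⟨a, b, rfl, rfl, h3, h4⟩⟩

theorem sub_none_some {H : SimpleGraph W} {u v a : W} :
    (subdivideEdge H u v).Adj none (some a) ↔ (a = u ∨ a = v) := by
  unfold subdivideEdge
  simp only [SimpleGraph.fromRel_adj, ne_eq, Option.some.injEq, reduceCtorEq, false_and, true_and,
    or_false, exists_const, false_or]
  simp

theorem sub_some_none {H : SimpleGraph W} {u v a : W} :
    (subdivideEdge H u v).Adj (some a) none ↔ (a = u ∨ a = v) := by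
  rw [SimpleGraph.adj_comm, sub_none_some]

theorem sub_none_none {H : SimpleGraph W} {u v : W} :
    ¬ (subdivideEdge H u v).Adj none none := SimpleGraph.irrefl _

/-- transport of a subdivided edge along an isomorphism -/
def subIso {H : SimpleGraph W} {H' : SimpleGraph U} (e : H ≃g H') (u v : W) :
    subdivideEdge H u v ≃g subdivideEdge H' (e u) (e v) where
  toEquiv := Equiv.optionCongr e.toEquiv
  map_rel_iff' := by
    rintro (_ | a) (_ | b)
    · simp
    · show (subdivideEdge H' (e u) (e v)).Adj none (some (e b)) ↔ _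
      rw [sub_none_some, sub_none_some]; simp
    · show (subdivideEdge H' (e u) (e v)).Adj (some (e a)) none ↔ _
      rw [sub_some_none, sub_some_none]; simp
    · show (subdivideEdge H' (e u) (e v)).Adj (some (e a)) (some (e b)) ↔ _
      rw [sub_some_some, sub_some_some, e.map_adj_iff]
      have : s(e a, e b) = s(e u, e v) ↔ s(a, b) = s(u, v) := by
        simp only [Sym2.eq_iff, EmbeddingLike.apply_eq_iff_eq]
      rw [ne_eq, ne_eq, this]

theorem IsSubdivision.trans_iso {H : SimpleGraph W} {K : SimpleGraph U} {K' : SimpleGraph V}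
    (h : IsSubdivision H K) : (K ≃g K') → IsSubdivision H K' := by
  induction h with
  | iso e => intro e'; exact IsSubdivision.iso (e'.comp e)
  | step huv _ ih => intro e'; exact IsSubdivision.step huv (ih e')

theorem IsSubdivision.iso_trans {H : SimpleGraph W} {H' : SimpleGraph V} {K : SimpleGraph U}
    (h : IsSubdivision H K) : (H' ≃g H) → IsSubdivision H' K := by
  intro e
  induction h generalizing V with
  | iso e' => exact IsSubdivision.iso (e'.comp e)
  | @step W U H K u v huv _ ih =>
    have e2 : subdivideEdge H' (e.symm u) (e.symm v) ≃g subdivideEdge H u v := by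
      have := subIso e (e.symm u) (e.symm v)
      simpa using this
    refine IsSubdivision.step (u := e.symm u) (v := e.symm v) ?_ (ih e2)
    rw [← e.map_adj_iff]; simpa using huv

/-- subdividing once more at the end -/
theorem IsSubdivision.snoc {H : SimpleGraph W} {K : SimpleGraph U} (h : IsSubdivision H K) :
    ∀ {u v : U}, K.Adj u v → IsSubdivision H (subdivideEdge K u v) := by
  induction h with
  | @iso W U H K e =>
    intro u v huv
    have e2 : subdivideEdge H (e.symm u) (e.symm v) ≃g subdivideEdge K u v := by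
      have := subIso e (e.symm u) (e.symm v)
      simpa using this
    refine IsSubdivision.step (u := e.symm u) (v := e.symm v) ?_ (IsSubdivision.iso e2)
    rw [← e.map_adj_iff]; simpa using huv
  | step huv' _ ih =>
    intro u v huv
    exact IsSubdivision.step huv' (ih huv)

/-- induced embeddings lift to subdivided graphs -/
theorem ind_sub {H : SimpleGraph W} {F : SimpleGraph U} (φ : H ↪g F) (a b : W) :
    (subdivideEdge H a b).IsIndContained (subdivideEdge F (φ a) (φ b)) := by
  refine ⟨⟨⟨Option.map φ, Option.map_injective φ.injective⟩, ?_⟩⟩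
  rintro (_ | x) (_ | y)
  · simp
  · show (subdivideEdge F (φ a) (φ b)).Adj none (some (φ y)) ↔ _
    rw [sub_none_some, sub_none_some]; simp
  · show (subdivideEdge F (φ a) (φ b)).Adj (some (φ x)) none ↔ _
    rw [sub_some_none, sub_some_none]; simp
  · show (subdivideEdge F (φ a) (φ b)).Adj (some (φ x)) (some (φ y)) ↔ _
    rw [sub_some_some, sub_some_some, φ.map_adj_iff]
    have : s(φ x, φ y) = s(φ a, φ b) ↔ s(x, y) = s(a, b) := by
      simp only [Sym2.eq_iff, EmbeddingLike.apply_eq_iff_eq]
    rw [ne_eq, ne_eq, this]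

theorem ind_sub' {H : SimpleGraph W} {F : SimpleGraph U} (φ : H ↪g F) {u v : U}
    (h : ∀ a b, φ a = u → φ b = v → False) (h' : ∀ a b, φ a = v → φ b = u → False) :
    H.IsIndContained (subdivideEdge F u v) := by
  refine ⟨⟨⟨fun x => some (φ x), fun x y hxy => φ.injective (Option.some_injective _ hxy)⟩, ?_⟩⟩
  intro x y
  show (subdivideEdge F u v).Adj (some (φ x)) (some (φ y)) ↔ _
  rw [sub_some_some, φ.map_adj_iff]
  constructor
  · exact fun h => h.1
  · intro hxy
    refine ⟨hxy, fun hs => ?_⟩
    rw [Sym2.eq_iff] at hs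
    rcases hs with ⟨h1, h2⟩ | ⟨h1, h2⟩
    · exact h _ _ h1 h2
    · exact h' _ _ h1 h2

/-- if `H` is an induced subgraph of `F` then every subdivision of `F` contains a subdivision of
`H` as an induced subgraph -/
theorem sub_mono {F : SimpleGraph U} {K : SimpleGraph V} (h : IsSubdivision F K) :
    ∀ {W : Type} {H : SimpleGraph W}, H.IsIndContained F → IsITM H K := by
  induction h with
  | @iso U V F K e =>
    intro W H hH
    exact ⟨W, H, IsSubdivision.iso (Iso.refl), hH.trans ⟨e.toEmbedding⟩⟩
  | @step U V F K u v huv _ ih =>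
    rintro W H ⟨φ⟩
    by_cases hc : ∃ a b, φ a = u ∧ φ b = v
    · obtain ⟨a, b, ha, hb⟩ := hc
      subst ha hb
      obtain ⟨T, K', h1, h2⟩ := ih (ind_sub φ a b)
      exact ⟨T, K', IsSubdivision.step (φ.map_adj_iff.1 huv) h1, h2⟩
    · have := ind_sub' φ (u := u) (v := v) (fun a b h1 h2 => hc ⟨a, b, h1, h2⟩)
        (fun a b h1 h2 => hc ⟨b, a, h2, h1⟩)
      exact ih this

theorem IsITM.mono_left {H : SimpleGraph W} {F : SimpleGraph U} {G : SimpleGraph V}
    (h : IsITM F G) (hH : H.IsIndContained F) : IsITM H G := by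
  obtain ⟨T, K, h1, h2⟩ := h
  obtain ⟨T', K', h3, h4⟩ := sub_mono h1 hH
  exact ⟨T', K', h3, h4.trans h2⟩

theorem IsITM.mono_right {H : SimpleGraph W} {F : SimpleGraph U} {G : SimpleGraph V}
    (h : IsITM H F) (hF : F.IsIndContained G) : IsITM H G := by
  obtain ⟨T, K, h1, h2⟩ := h
  exact ⟨T, K, h1, h2.trans hF⟩

theorem IsITM.of_ind {H : SimpleGraph W} {G : SimpleGraph V} (h : H.IsIndContained G) :
    IsITM H G := ⟨W, H, IsSubdivision.iso Iso.refl, h⟩

theorem BddItm.mono {H : SimpleGraph W} {F : SimpleGraph U} (hF : BddItm F)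
    (h : H.IsIndContained F) : BddItm H := by
  obtain ⟨c, hc⟩ := hF
  exact ⟨c, fun V _ G hG => hc V G fun h' => hG (h'.mono_left h)⟩

end Pool.Agent.W124.ITM
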