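import Pool.Agent.W124.ITM.Supp

/-! A 2-connected graph of minimum degree at least three has a vertex whose deletion leaves a
2-connected graph. -/

set_option autoImplicit false

namespace Pool.Agent.W124.ITM

open SimpleGraph Pool.Agent.H175R2 Finset Classical

variable {V : Type}

theorem cut1 [Fintype V] {G : SimpleGraph V} (hG : TwoConn G) {X : Finset V} {p z : V}
    (hX : X.Nonempty) (hp : p ∉ X) (h : ∀ x ∈ X, ∀ y, y ∉ X → G.Adj x y → y = p)
    (hz : z ∉ X) (hzp : z ≠ p) : False := by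
  obtain ⟨x, hx, y, hy, hxy⟩ := (hG.del p).2 X (by
    intro x hx
    exact mem_erase.2 ⟨fun h => hp (h ▸ hx), mem_univ _⟩) hX
    ⟨z, mem_sdiff.2 ⟨mem_erase.2 ⟨hzp, mem_univ _⟩, hz⟩⟩
  obtain ⟨hy1, hy2⟩ := mem_sdiff.1 hy
  exact (mem_erase.1 hy1).1 (h x hx y hy2 hxy)

/-- nonempty sets with at most two neighbours outside and at least one further vertex -/
def Frag (G : SimpleGraph V) (C : Finset V) : Prop :=
  C.Nonempty ∧ ∃ p q, p ∉ C ∧ q ∉ C ∧ (∀ x ∈ C, ∀ y, y ∉ C → G.Adj x y → y = p ∨ y = q) ∧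
    ∃ z, z ∉ C ∧ z ≠ p ∧ z ≠ q

/-- two parts after the deletion of `u`, `u'` -/
structure Cut2 [Fintype V] (G : SimpleGraph V) (u u' : V) (F1 F2 : Finset V) : Prop where
  ne : u ≠ u'
  n1 : F1.Nonempty
  n2 : F2.Nonempty
  cover : ∀ x, x = u ∨ x = u' ∨ x ∈ F1 ∨ x ∈ F2
  disj : ∀ x, x ∈ F1 → x ∉ F2
  u1 : u ∉ F1
  u2 : u ∉ F2
  v1 : u' ∉ F1
  v2 : u' ∉ F2
  no : ∀ x ∈ F1, ∀ y ∈ F2, ¬ G.Adj x y

theorem Cut2.symm [Fintype V] {G : SimpleGraph V} {u u' : V} {F1 F2 : Finset V}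
    (h : Cut2 G u u' F1 F2) : Cut2 G u u' F2 F1 :=
  ⟨h.ne, h.n2, h.n1, fun x => by have := h.cover x; tauto, fun x h2 h1 => h.disj x h1 h2, h.u2, h.u1,
    h.v2, h.v1, fun x hx y hy hxy => h.no y hy x hx hxy.symm⟩

theorem Cut2.frag [Fintype V] {G : SimpleGraph V} {u u' : V} {F1 F2 : Finset V}
    (h : Cut2 G u u' F1 F2) : Frag G F2 := by
  refine ⟨h.n2, u, u', h.u2, h.v2, fun x hx y hy hxy => ?_, ?_⟩
  · rcases h.cover y with h1 | h1 | h1 | h1
    · exact Or.inl h1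
    · exact Or.inr h1
    · exact absurd hxy.symm (h.no y h1 x hx)
    · exact absurd h1 hy
  · obtain ⟨z, hz⟩ := h.n1
    exact ⟨z, h.disj z hz, fun h' => h.u1 (h' ▸ hz), fun h' => h.v1 (h' ▸ hz)⟩

theorem exists_cut2 [Fintype V] {G : SimpleGraph V} (hG : TwoConn G) (h4 : 4 ≤ Fintype.card V)
    {v : V} (hv : ¬ TwoConn (G.comap (emb (univ.erase v)))) : ∃ w F1 F2, Cut2 G v w F1 F2 := by
  have : ∃ w, w ≠ v ∧ ¬ Cn G ((univ.erase v).erase w) := by
    by_contra hcon
    push Not at hcon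
    exact hv (twoConn_comap h4 (hG.del v) hcon)
  obtain ⟨w, hwv, hw⟩ := this
  have hwm : w ∈ univ.erase v := mem_erase.2 ⟨hwv, mem_univ _⟩
  have hne : ((univ.erase v).erase w).Nonempty := by
    rw [← card_pos, card_erase_of_mem hwm, card_erase_of_mem (mem_univ _), card_univ]
    omega
  unfold Cn at hw
  push Not at hw
  obtain ⟨T, hT, hn, hn', hno⟩ := hw hne
  refine ⟨w, T, ((univ.erase v).erase w) \ T, hwv.symm, hn, hn', ?_, ?_, ?_, ?_, ?_, ?_, hno⟩
  · intro x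
    by_cases h1 : x = v
    · exact Or.inl h1
    · by_cases h2 : x = w
      · exact Or.inr (Or.inl h2)
      · by_cases h3 : x ∈ T
        · exact Or.inr (Or.inr (Or.inl h3))
        · refine Or.inr (Or.inr (Or.inr (mem_sdiff.2 ⟨?_, h3⟩)))
          exact mem_erase.2 ⟨h2, mem_erase.2 ⟨h1, mem_univ _⟩⟩
  · intro x hx hx'
    exact (mem_sdiff.1 hx').2 hx
  · intro h
    have := hT h
    simp at this
  · intro h
    have := (mem_sdiff.1 h).1
    simp at this
  · intro h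
    have := hT h
    simp at this
  · intro h
    have := (mem_sdiff.1 h).1
    simp at this

section
variable [Fintype V] {G : SimpleGraph V} {C : Finset V} {p q u u' : V}

/-- the first step -/
theorem ckl_L (hG : TwoConn G) (hmin : ∀ X, Frag G X → C.card ≤ X.card)
    (hN : ∀ x ∈ C, ∀ y, y ∉ C → G.Adj x y → y = p ∨ y = q) (hu : u ∈ C) {F1 F2 : Finset V}
    (hF : Cut2 G u u' F1 F2) (h1 : p ∉ F2) (h2 : q ∉ F2) : False := by
  have hsub : F2 ⊆ C.erase u := by
    by_contra hns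
    have hne : (F2 \ C).Nonempty := by
      rw [sdiff_nonempty]
      intro h
      apply hns
      intro x hx
      exact mem_erase.2 ⟨fun h' => hF.u2 (h' ▸ hx), h hx⟩
    refine cut1 hG (X := F2 \ C) (p := u') (z := u) hne ?_ ?_ ?_ hF.ne
    · exact fun h => hF.v2 (mem_sdiff.1 h).1
    · intro x hx y hy hxy
      obtain ⟨hx1, hx2⟩ := mem_sdiff.1 hx
      have hyC : y ∉ C := by
        intro hyC
        rcases hN y hyC x hx2 hxy.symm with rfl | rfl
        · exact h1 hx1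
        · exact h2 hx1
      rcases hF.cover y with h | h | h | h
      · exact absurd (h ▸ hu) hyC
      · exact h
      · exact absurd hxy.symm (hF.no y h x hx1)
      · exact absurd (mem_sdiff.2 ⟨h, hyC⟩) hy
    · exact fun h => hF.u2 (mem_sdiff.1 h).1
  have hc := card_le_card hsub
  rw [card_erase_of_mem hu] at hc
  have h3 := hmin F2 hF.frag
  have := card_pos.2 ⟨u, hu⟩
  omega

/-- second step, `u'` outside `C` -/
theorem ckl_M (hmin : ∀ X, Frag G X → C.card ≤ X.card)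
    (hN : ∀ x ∈ C, ∀ y, y ∉ C → G.Adj x y → y = p ∨ y = q) (hp : p ∉ C)
    (hu : u ∈ C) (hu' : u' ∉ C) {F1 F2 : Finset V}
    (hF : Cut2 G u u' F1 F2) (h1 : p ∈ F1) (h2 : q ∈ F2) : ∀ x ∈ C, x ∉ F1 := by
  intro x0 hx0 hx0F
  have hfr : Frag G (C ∩ F1) := by
    refine ⟨⟨x0, mem_inter.2 ⟨hx0, hx0F⟩⟩, p, u, fun h => hp (mem_inter.1 h).1,
      fun h => hF.u1 (mem_inter.1 h).2, ?_, q, fun h => hF.disj q (mem_inter.1 h).2 h2, ?_, ?_⟩
    · intro x hx y hy hxy
      obtain ⟨hxC, hxF⟩ := mem_inter.1 hx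
      by_cases hyC : y ∈ C
      · rcases hF.cover y with h | h | h | h
        · exact Or.inr h
        · exact absurd (h ▸ hyC) hu'
        · exact absurd (mem_inter.2 ⟨hyC, h⟩) hy
        · exact absurd hxy (hF.no x hxF y h)
      · rcases hN x hxC y hyC hxy with h | h
        · exact Or.inl h
        · rw [h] at hxy
          exact absurd hxy (hF.no x hxF q h2)
    · rintro rfl; exact hF.disj _ h1 h2
    · rintro rfl; exact hF.u2 h2
  have hsub : C ∩ F1 ⊆ C.erase u := by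
    intro x hx
    obtain ⟨hxC, hxF⟩ := mem_inter.1 hx
    exact mem_erase.2 ⟨fun h' => hF.u1 (h' ▸ hxF), hxC⟩
  have hc := card_le_card hsub
  rw [card_erase_of_mem hu] at hc
  have h3 := hmin _ hfr
  have := card_pos.2 ⟨u, hu⟩
  omega

/-- second step, `u'` in `C` -/
theorem ckl_D (hG : TwoConn G)
    (hN : ∀ x ∈ C, ∀ y, y ∉ C → G.Adj x y → y = p ∨ y = q)
    (hu : u ∈ C) (hu' : u' ∈ C) {F1 F2 : Finset V}
    (hF : Cut2 G u u' F1 F2) (h1 : p ∈ F1) (h2 : q ∈ F2) : ∀ x ∈ F1, x ∈ C ∨ x = p := by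
  intro x0 hx0
  by_contra hcon
  push Not at hcon
  refine cut1 hG (X := F1 \ (insert p C)) (p := p) (z := u) ⟨x0, ?_⟩ (by simp) ?_ (by simp [hu]) ?_
  · rw [mem_sdiff, mem_insert, not_or]; exact ⟨hx0, hcon.2, hcon.1⟩
  · intro x hx y hy hxy
    rw [mem_sdiff, mem_insert, not_or] at hx hy
    obtain ⟨hxF, hxp, hxC⟩ := hx
    have hyC : y ∉ C := by
      intro hyC
      rcases hN y hyC x hxC hxy.symm with h | h
      · exact hxp h
      · rw [h] at hxF; exact hF.disj _ hxF h2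
    by_contra hyp
    apply hy
    refine ⟨?_, hyp, hyC⟩
    rcases hF.cover y with h | h | h | h
    · exact absurd (h ▸ hu) hyC
    · exact absurd (h ▸ hu') hyC
    · exact h
    · exact absurd hxy (hF.no x hxF y h)
  · rintro rfl; exact hF.u1 h1

end

theorem ckl [Fintype V] {G : SimpleGraph V} (hG : TwoConn G)
    (hdeg : ∀ x, ∃ a b c, a ≠ b ∧ a ≠ c ∧ b ≠ c ∧ G.Adj x a ∧ G.Adj x b ∧ G.Adj x c) :
    ∃ v, TwoConn (G.comap (emb (univ.erase v))) := by
  by_contra hcon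
  push Not at hcon
  have hne : Nonempty V := by
    obtain ⟨x, _⟩ := hG.conn.1; exact ⟨x⟩
  obtain ⟨v0⟩ := hne
  have h4 : 4 ≤ Fintype.card V := by
    obtain ⟨a, b, c, hab, hac, hbc, ha, hb, hc⟩ := hdeg v0
    have : ({v0, a, b, c} : Finset V).card = 4 := by
      rw [card_eq_four]
      exact ⟨v0, a, b, c, ha.ne, hb.ne, hc.ne, hab, hac, hbc, rfl⟩
    rw [← this, ← card_univ]
    exact card_le_card (subset_univ _)
  obtain ⟨w0, A1, A2, hA⟩ := exists_cut2 hG h4 (hcon v0)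
  obtain ⟨C, hC, hmin'⟩ := exists_min_image (univ.filter (fun C => Frag G C)) card
    ⟨A2, mem_filter.2 ⟨mem_univ _, hA.frag⟩⟩
  have hmin : ∀ X, Frag G X → C.card ≤ X.card := fun X hX =>
    hmin' X (mem_filter.2 ⟨mem_univ _, hX⟩)
  obtain ⟨⟨u, hu⟩, p, q, hp, hq, hN, z, hz, hzp, hzq⟩ := (mem_filter.1 hC).2
  obtain ⟨u', F1, F2, hF⟩ := exists_cut2 hG h4 (hcon u)
  have hL1 := ckl_L hG hmin hN hu hF
  have hL2 := ckl_L hG hmin hN hu hF.symm
  -- we may assume `p ∈ F1`, `q ∈ F2`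
  have main : ∀ (p q : V) (F1 F2 : Finset V), p ∉ C → q ∉ C →
      (∀ x ∈ C, ∀ y, y ∉ C → G.Adj x y → y = p ∨ y = q) → z ≠ p → z ≠ q → Cut2 G u u' F1 F2 →
      p ∈ F1 → q ∈ F2 → False := by
    intro p q F1 F2 hp hq hN hzp hzq hF h1 h2
    have hN' : ∀ x ∈ C, ∀ y, y ∉ C → G.Adj x y → y = q ∨ y = p := fun x hx y hy hxy =>
      (hN x hx y hy hxy).symm
    by_cases hu' : u' ∈ C
    · have d1 := ckl_D hG hN hu hu' hF h1 h2
      have d2 := ckl_D hG hN' hu hu' hF.symm h2 h1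
      rcases hF.cover z with h | h | h | h
      · exact hz (h ▸ hu)
      · exact hz (h ▸ hu')
      · rcases d1 z h with h' | h'
        · exact hz h'
        · exact hzp h'
      · rcases d2 z h with h' | h'
        · exact hz h'
        · exact hzq h'
    · have d1 := ckl_M hmin hN hp hu hu' hF h1 h2
      have d2 := ckl_M hmin hN' hq hu hu' hF.symm h2 h1
      have hCu : ∀ x ∈ C, x = u := by
        intro x hx
        rcases hF.cover x with h | h | h | h
        · exact h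
        · exact absurd (h ▸ hx) hu'
        · exact absurd h (d1 x hx)
        · exact absurd h (d2 x hx)
      obtain ⟨a, b, c, hab, hac, hbc, ha, hb, hc⟩ := hdeg u
      have key : ∀ a, G.Adj u a → a = p ∨ a = q := by
        intro a ha
        apply hN u hu a _ ha
        intro haC
        exact ha.ne (hCu a haC).symm
      rcases key a ha with h5 | h5 <;> rcases key b hb with h6 | h6 <;>
        rcases key c hc with h7 | h7
      all_goals first
        | exact hab (h5.trans h6.symm)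
        | exact hac (h5.trans h7.symm)
        | exact hbc (h6.trans h7.symm)
  have hN' : ∀ x ∈ C, ∀ y, y ∉ C → G.Adj x y → y = q ∨ y = p := fun x hx y hy hxy =>
      (hN x hx y hy hxy).symm
  by_cases p1 : p ∈ F1
  · by_cases q2 : q ∈ F2
    · exact main p q F1 F2 hp hq hN hzp hzq hF p1 q2
    · exact hL1 (hF.disj p p1) q2
  · by_cases q1 : q ∈ F1
    · by_cases p2 : p ∈ F2
      · exact main q p F1 F2 hq hp hN' hzq hzp hF q1 p2
      · exact hL1 p2 (hF.disj q q1)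
    · exact hL2 p1 q1

end Pool.Agent.W124.ITM
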