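import Pool.Agent.W124.ITM.Props

/-! The graphs with the four properties are the induced subgraphs of `P₄`, the paw and the
diamond. -/

set_option autoImplicit false

namespace Pool.Agent.W124.ITM

open SimpleGraph Pool.Agent.H175R2

variable {W U V : Type}

theorem pt_noK4 {H : SimpleGraph W} (h : PT W H) {a b c d : W} (ab : H.Adj a b) (ac : H.Adj a c)
    (ad : H.Adj a d) (bc : H.Adj b c) (bd : H.Adj b d) (cd : H.Adj c d) : False := by
  obtain ⟨h1, R, hs, ha, ht, h2, h3⟩ := h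
  -- a has partners
  have part : ∀ x y z w : W, H.Adj x y → H.Adj x z → H.Adj x w → H.Adj y z → H.Adj y w →
      H.Adj z w → ∃ p q, p ≠ q ∧ R x p ∧ R x q ∧ (p = y ∨ p = z ∨ p = w) ∧
        (q = y ∨ q = z ∨ q = w) := by
    intro x y z w xy xz xw yz yw zw
    obtain ⟨p, q, hpq, hp, hq⟩ := h3 x y z w xy xz xw yz.ne yw.ne zw.ne
    have key : ∀ p, R x p → (p = y ∨ p = z ∨ p = w) := by
      intro p hp
      rcases h1 x y z w p xy xz xw (ha _ _ hp) with h | h | h | h | h | h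
      · exact absurd h yz.ne
      · exact absurd h yw.ne
      · exact Or.inl h.symm
      · exact absurd h zw.ne
      · exact Or.inr (Or.inl h.symm)
      · exact Or.inr (Or.inr h.symm)
    exact ⟨p, q, hpq, hp, hq, key p hp, key q hq⟩
  -- the triangle of a and the fourth vertex
  have main : ∀ x p q r : W, H.Adj x p → H.Adj x q → H.Adj x r → H.Adj p q → H.Adj p r →
      H.Adj q r → R x p → R x q → False := by
    intro x p q r xp xq xr pq pr qr Rp Rq
    obtain ⟨s, t, hst, hs', ht', ms, mt⟩ := part r x p q xr.symm pr.symm qr.symm xp xq pq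
    have Rpq := ht _ _ _ Rp Rq pq.ne
    -- s is one of x, p, q, which has the three partners
    rcases ms with rfl | rfl | rfl
    · rcases h2 _ _ _ _ Rp Rq (hs _ _ hs') with h | h | h
      · exact pq.ne h
      · exact pr.ne h
      · exact qr.ne h
    · rcases h2 _ _ _ _ (hs _ _ Rp) Rpq (hs _ _ hs') with h | h | h
      · exact xq.ne h
      · exact xr.ne h
      · exact qr.ne h
    · rcases h2 _ _ _ _ (hs _ _ Rq) (hs _ _ Rpq) (hs _ _ hs') with h | h | h
      · exact xp.ne h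
      · exact xr.ne h
      · exact pr.ne h
  obtain ⟨p, q, hpq, hp, hq, mp, mq⟩ := part a b c d ab ac ad bc bd cd
  rcases mp with rfl | rfl | rfl <;> rcases mq with rfl | rfl | rfl
  · exact hpq rfl
  · exact main a _ _ d ab ac ad bc bd cd hp hq
  · exact main a _ _ c ab ad ac bd bc cd.symm hp hq
  · exact main a _ _ d ab ac ad bc bd cd hq hp
  · exact hpq rfl
  · exact main a _ _ b ac ad ab cd bc.symm bd.symm hp hq
  · exact main a _ _ c ab ad ac bd bc cd.symm hq hp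
  · exact main a _ _ b ac ad ab cd bc.symm bd.symm hq hp
  · exact hpq rfl

theorem pc_of {H : SimpleGraph W} {w x y z : W} (xy : H.Adj x y) (xz : H.Adj x z) (yz : H.Adj y z)
    (wx : ¬ H.Adj w x) (wy : ¬ H.Adj w y) (wz : ¬ H.Adj w z) (hx : w ≠ x) (hy : w ≠ y)
    (hz : w ≠ z) : PC W H := by
  refine ⟨w, {x, y, z}, ⟨x, by simp⟩, by simp [hx, hy, hz], ?_, ?_⟩
  · rintro s (rfl | rfl | rfl) <;> assumption
  · rintro s (rfl | rfl | rfl)
    · exact ⟨y, by simp, z, by simp, yz.ne, xy, xz⟩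
    · exact ⟨x, by simp, z, by simp, xz.ne, xy.symm, yz⟩
    · exact ⟨x, by simp, y, by simp, xy.ne, xz.symm, yz.symm⟩

/-- no five vertices -/
theorem card_le_four {H : SimpleGraph W} [Finite W] (h1 : NoInd3 W H) (h2 : IsSplit W H)
    (h3 : PT W H) (h4 : ¬ PC W H) : Nat.card W ≤ 4 := by
  classical
  have : Fintype W := Fintype.ofFinite W
  rw [Nat.card_eq_fintype_card]
  obtain ⟨A, hA, hB⟩ := h2
  by_contra hcon
  push Not at hcon
  have c1 : (Finset.univ.filter (fun x => x ∈ A)).card ≤ 3 := by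
    by_contra hc
    push Not at hc
    obtain ⟨J, hJ, hJc⟩ := Finset.exists_subset_card_eq (show 4 ≤ _ from hc)
    obtain ⟨a, b, c, d, hab, hac, had, hbc, hbd, hcd, rfl⟩ := Finset.card_eq_four.1 hJc
    have ma := (Finset.mem_filter.1 (hJ (by simp : a ∈ ({a, b, c, d} : Finset W)))).2
    have mb := (Finset.mem_filter.1 (hJ (by simp : b ∈ ({a, b, c, d} : Finset W)))).2
    have mc := (Finset.mem_filter.1 (hJ (by simp : c ∈ ({a, b, c, d} : Finset W)))).2
    have md := (Finset.mem_filter.1 (hJ (by simp : d ∈ ({a, b, c, d} : Finset W)))).2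
    exact pt_noK4 h3 (hA _ ma _ mb hab) (hA _ ma _ mc hac) (hA _ ma _ md had) (hA _ mb _ mc hbc)
      (hA _ mb _ md hbd) (hA _ mc _ md hcd)
  have c2 : (Finset.univ.filter (fun x => ¬ x ∈ A)).card ≤ 2 := by
    by_contra hc
    push Not at hc
    obtain ⟨a, b, c, ha, hb, hc', hab, hac, hbc⟩ := Finset.two_lt_card_iff.1 hc
    have ma := (Finset.mem_filter.1 ha).2
    have mb := (Finset.mem_filter.1 hb).2
    have mc := (Finset.mem_filter.1 hc').2
    rcases h1 a b c hab hac hbc with h | h | h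
    · exact hB _ ma _ mb h
    · exact hB _ ma _ mc h
    · exact hB _ mb _ mc h
  have c3 := Finset.card_filter_add_card_filter_not (s := (Finset.univ : Finset W)) (fun x => x ∈ A)
  rw [Finset.card_univ] at c3
  obtain ⟨a1, a2, a3, h12, h13, h23, e1⟩ := Finset.card_eq_three.1
    (show (Finset.univ.filter (fun x => x ∈ A)).card = 3 by omega)
  obtain ⟨b1, b2, hb12, e2⟩ := Finset.card_eq_two.1
    (show (Finset.univ.filter (fun x => ¬ x ∈ A)).card = 2 by omega)
  have ma : ∀ x, (x = a1 ∨ x = a2 ∨ x = a3) → x ∈ A := by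
    intro x hx
    have : x ∈ Finset.univ.filter (fun x => x ∈ A) := by rw [e1]; simpa using hx
    exact (Finset.mem_filter.1 this).2
  have mb : ∀ x, (x = b1 ∨ x = b2) → x ∉ A := by
    intro x hx
    have : x ∈ Finset.univ.filter (fun x => ¬ x ∈ A) := by rw [e2]; simpa using hx
    exact (Finset.mem_filter.1 this).2
  have m1 := ma a1 (by tauto)
  have m2 := ma a2 (by tauto)
  have m3 := ma a3 (by tauto)
  have n1 := mb b1 (by tauto)
  have n2 := mb b2 (by tauto)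
  have ne : ∀ x y, x ∈ A → y ∉ A → x ≠ y := fun x y hx hy h => hy (h ▸ hx)
  have a12 := hA _ m1 _ m2 h12
  have a13 := hA _ m1 _ m3 h13
  have a23 := hA _ m2 _ m3 h23
  have nb := hB _ n1 _ n2
  -- each `a` is adjacent to exactly one `b`
  have one : ∀ a, a ∈ A → H.Adj a b1 ∨ H.Adj a b2 := by
    intro a ha
    rcases h1 a b1 b2 (ne _ _ ha n1) (ne _ _ ha n2) hb12 with h | h | h
    · exact Or.inl h
    · exact Or.inr h
    · exact absurd h nb
  have notboth : ∀ a x y, a ∈ A → x ∈ A → y ∈ A → a ≠ x → a ≠ y → x ≠ y → H.Adj a b1 →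
      ¬ H.Adj a b2 := by
    intro a x y ha hx hy hax hay hxy h h'
    rcases h3.1 a x y b1 b2 (hA _ ha _ hx hax) (hA _ ha _ hy hay) h h' with h | h | h | h | h | h
    · exact hxy h
    · exact ne _ _ hx n1 h
    · exact ne _ _ hx n2 h
    · exact ne _ _ hy n1 h
    · exact ne _ _ hy n2 h
    · exact hb12 h
  have pair : ∀ x y b b', x ∈ A → y ∈ A → x ≠ y → b ∉ A → b' ∉ A → b ≠ b' → ¬ H.Adj b' b →
      H.Adj x b → H.Adj y b → ¬ H.Adj x b' → ¬ H.Adj y b' → False := by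
    intro x y b b' hx hy hxy hb hb' hbb hnb xb yb xb' yb'
    refine h4 (pc_of (w := b') (hA _ hx _ hy hxy) xb yb ?_ ?_ hnb (ne _ _ hx hb').symm
      (ne _ _ hy hb').symm hbb.symm)
    · exact fun h => xb' h.symm
    · exact fun h => yb' h.symm
  have t1 := one a1 m1
  have t2 := one a2 m2
  have t3 := one a3 m3
  have s1 := notboth a1 a2 a3 m1 m2 m3 h12 h13 h23
  have s2 := notboth a2 a1 a3 m2 m1 m3 h12.symm h23 h13
  have s3 := notboth a3 a1 a2 m3 m1 m2 h13.symm h23.symm h12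
  have p12 := pair a1 a2 b1 b2 m1 m2 h12 n1 n2 hb12 (fun h => nb h.symm)
  have p13 := pair a1 a3 b1 b2 m1 m3 h13 n1 n2 hb12 (fun h => nb h.symm)
  have p23 := pair a2 a3 b1 b2 m2 m3 h23 n1 n2 hb12 (fun h => nb h.symm)
  have q12 := pair a1 a2 b2 b1 m1 m2 h12 n2 n1 hb12.symm nb
  have q13 := pair a1 a3 b2 b1 m1 m3 h13 n2 n1 hb12.symm nb
  have q23 := pair a2 a3 b2 b1 m2 m3 h23 n2 n1 hb12.symm nb
  clear pair notboth one ne ma mb
  by_cases x1 : H.Adj a1 b1 <;> by_cases x2 : H.Adj a2 b1 <;> by_cases x3 : H.Adj a3 b1 <;>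
    simp_all

/-- the three target graphs -/
def Tgt (t : Fin 3) (i j : Fin 4) : Bool :=
  match t with
  | 0 => decide (i.val + 1 = j.val ∨ j.val + 1 = i.val)
  | 1 => decide (i ≠ j ∧ (i = 0 ∨ j = 0 ∨ (i = 1 ∧ j = 2) ∨ (i = 2 ∧ j = 1)))
  | 2 => decide (i ≠ j ∧ (i = 0 ∨ i = 1 ∨ j = 0 ∨ j = 1))

theorem tgt0 (i j : Fin 4) : P4.Adj i j ↔ Tgt 0 i j = true := by
  unfold P4
  rw [SimpleGraph.fromRel_adj]
  revert i j
  decide

theorem tgt1 (i j : Fin 4) : paw.Adj i j ↔ Tgt 1 i j = true := by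
  unfold paw
  rw [SimpleGraph.fromRel_adj]
  revert i j
  decide

theorem tgt2 (i j : Fin 4) : diamond.Adj i j ↔ Tgt 2 i j = true := by
  unfold diamond
  rw [SimpleGraph.fromRel_adj]
  revert i j
  decide

theorem ind_of_tgt {m : ℕ} (K : SimpleGraph (Fin m)) (t : Fin 3) (f : Fin m → Fin 4)
    (hf : Function.Injective f) (h : ∀ i j, K.Adj i j ↔ Tgt t (f i) (f j) = true) :
    K.IsIndContained P4 ∨ K.IsIndContained paw ∨ K.IsIndContained diamond := by
  fin_cases t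
  · exact Or.inl ⟨⟨⟨f, hf⟩, by intro i j; exact (tgt0 _ _).trans (h i j).symm⟩⟩
  · exact Or.inr (Or.inl ⟨⟨⟨f, hf⟩, by intro i j; exact (tgt1 _ _).trans (h i j).symm⟩⟩)
  · exact Or.inr (Or.inr ⟨⟨⟨f, hf⟩, by intro i j; exact (tgt2 _ _).trans (h i j).symm⟩⟩)

theorem bool3 : ∀ a b c : Bool, (a || b || c) = true →
    ∃ f0 f1 f2 : Fin 4, f0 ≠ f1 ∧ f0 ≠ f2 ∧ f1 ≠ f2 ∧ Tgt 1 f0 f1 = a ∧ Tgt 1 f0 f2 = b ∧
      Tgt 1 f1 f2 = c := by decide

theorem bool2 : ∀ a : Bool, ∃ f0 f1 : Fin 4, f0 ≠ f1 ∧ Tgt 1 f0 f1 = a := by decide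

/-- the conditions on four vertices -/
def cond4 (a b c d e f : Bool) : Bool :=
  (a || b || d) && (a || c || e) && (b || c || f) && (d || e || f) &&
  -- no `2K₂`
  !(a && f && !b && !c && !d && !e) && !(b && e && !a && !c && !d && !f) &&
  !(c && d && !a && !b && !e && !f) &&
  -- no `C₄`
  !(!a && !f && b && c && d && e) && !(!b && !e && a && c && d && f) &&
  !(!c && !d && a && b && e && f) &&
  -- no `K₄`
  !(a && b && c && d && e && f) &&
  -- no `K₃ + P₁`
  !(a && b && d && !c && !e && !f) && !(a && c && e && !b && !d && !f) &&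
  !(b && c && f && !a && !d && !e) && !(d && e && f && !a && !b && !c)

theorem bool4 : ∀ a b c d e f : Bool, cond4 a b c d e f = true →
    ∃ t : Fin 3, ∃ f0 f1 f2 f3 : Fin 4, f0 ≠ f1 ∧ f0 ≠ f2 ∧ f0 ≠ f3 ∧ f1 ≠ f2 ∧ f1 ≠ f3 ∧ f2 ≠ f3 ∧
      Tgt t f0 f1 = a ∧ Tgt t f0 f2 = b ∧ Tgt t f0 f3 = c ∧ Tgt t f1 f2 = d ∧ Tgt t f1 f3 = e ∧
      Tgt t f2 f3 = f := by decide +kernel

theorem tgt_symm : ∀ (t : Fin 3) (i j : Fin 4), Tgt t i j = Tgt t j i := by decide

theorem tgt_irrefl : ∀ (t : Fin 3) (i : Fin 4), Tgt t i i = false := by decide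

end Pool.Agent.W124.ITM
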