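import Pool.Agent.W124.ITM.Classify

set_option autoImplicit false

namespace Pool.Agent.W124.ITM

open SimpleGraph Pool.Agent.H175R2

variable {W U V : Type}

theorem split_no2K2 {H : SimpleGraph W} (h : IsSplit W H) {a b c d : W} (ab : H.Adj a b)
    (cd : H.Adj c d) (ac : ¬ H.Adj a c) (ad : ¬ H.Adj a d) (bc : ¬ H.Adj b c)
    (bd : ¬ H.Adj b d) : False := by
  obtain ⟨A, h1, h2⟩ := h
  have nac : a ≠ c := by rintro rfl; exact ad cd
  have nad : a ≠ d := by rintro rfl; exact ac cd.symm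
  have nbc : b ≠ c := by rintro rfl; exact bd cd
  have nbd : b ≠ d := by rintro rfl; exact bc cd.symm
  by_cases ha : a ∈ A <;> by_cases hb : b ∈ A <;> by_cases hc : c ∈ A <;> by_cases hd : d ∈ A
  all_goals first
    | exact h2 _ ha _ hb ab
    | exact h2 _ hc _ hd cd
    | exact ac (h1 _ ha _ hc nac)
    | exact ad (h1 _ ha _ hd nad)
    | exact bc (h1 _ hb _ hc nbc)
    | exact bd (h1 _ hb _ hd nbd)

theorem split_noC4 {H : SimpleGraph W} (h : IsSplit W H) {a b c d : W} (nab : a ≠ b) (ncd : c ≠ d)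
    (ab : ¬ H.Adj a b)
    (cd : ¬ H.Adj c d) (ac : H.Adj a c) (ad : H.Adj a d) (bc : H.Adj b c)
    (bd : H.Adj b d) : False := by
  obtain ⟨A, h1, h2⟩ := h
  by_cases ha : a ∈ A <;> by_cases hb : b ∈ A <;> by_cases hc : c ∈ A <;> by_cases hd : d ∈ A
  all_goals first
    | exact ab (h1 _ ha _ hb nab)
    | exact cd (h1 _ hc _ hd ncd)
    | exact h2 _ ha _ hc ac
    | exact h2 _ ha _ hd ad
    | exact h2 _ hb _ hc bc
    | exact h2 _ hb _ hd bd

theorem classify_fin {m : ℕ} (hm : m ≤ 4) (K : SimpleGraph (Fin m)) (h1 : NoInd3 _ K)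
    (h2 : IsSplit _ K) (h3 : PT _ K) (h4 : ¬ PC _ K) :
    K.IsIndContained P4 ∨ K.IsIndContained paw ∨ K.IsIndContained diamond := by
  classical
  match m, hm, K, h1, h2, h3, h4 with
  | 0, _, K, _, _, _, _ =>
    exact ind_of_tgt K 0 (fun i => i.elim0) (fun i => i.elim0) (fun i => i.elim0)
  | 1, _, K, _, _, _, _ =>
    refine ind_of_tgt K 0 (fun _ => 0) (fun i j _ => Subsingleton.elim _ _) (fun i j => ?_)
    rw [Subsingleton.elim i j]
    simp [tgt_irrefl]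
  | 2, _, K, _, _, _, _ =>
    obtain ⟨f0, f1, hne, h⟩ := bool2 (decide (K.Adj 0 1))
    refine ind_of_tgt K 1 ![f0, f1] ?_ ?_
    · intro i j hij
      fin_cases i <;> fin_cases j <;> simp_all
    · have e01 : K.Adj 0 1 ↔ Tgt 1 f0 f1 = true := by rw [h]; simp
      intro i j
      fin_cases i <;> fin_cases j
      · simp [tgt_irrefl]
      · simpa using e01
      · simpa [K.adj_comm 1 0, tgt_symm 1 f1 f0] using e01
      · simp [tgt_irrefl]
  | 3, _, K, h1, _, _, _ =>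
    have hc : (decide (K.Adj 0 1) || decide (K.Adj 0 2) || decide (K.Adj 1 2)) = true := by
      have := h1 0 1 2 (by decide) (by decide) (by decide)
      simpa [or_assoc] using this
    obtain ⟨f0, f1, f2, n01, n02, n12, a, b, c⟩ := bool3 _ _ _ hc
    have e01 : K.Adj 0 1 ↔ Tgt 1 f0 f1 = true := by rw [a]; simp
    have e02 : K.Adj 0 2 ↔ Tgt 1 f0 f2 = true := by rw [b]; simp
    have e12 : K.Adj 1 2 ↔ Tgt 1 f1 f2 = true := by rw [c]; simp
    refine ind_of_tgt K 1 ![f0, f1, f2] ?_ ?_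
    · intro i j hij
      have n10 := n01.symm
      have n20 := n02.symm
      have n21 := n12.symm
      clear e01 e02 e12 a b c hc h1
      fin_cases i <;> fin_cases j <;> first | rfl | (exfalso; simp at hij; contradiction)
    · intro i j
      fin_cases i <;> fin_cases j
      · simp [tgt_irrefl]
      · simpa using e01
      · simpa using e02
      · simpa [K.adj_comm 1 0, tgt_symm 1 f1 f0] using e01
      · simp [tgt_irrefl]
      · simpa using e12
      · simpa [K.adj_comm 2 0, tgt_symm 1 f2 f0] using e02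
      · simpa [K.adj_comm 2 1, tgt_symm 1 f2 f1] using e12
      · simp [tgt_irrefl]
  | 4, _, K, h1, h2, h3, h4 =>
    have hc : cond4 (decide (K.Adj 0 1)) (decide (K.Adj 0 2)) (decide (K.Adj 0 3))
        (decide (K.Adj 1 2)) (decide (K.Adj 1 3)) (decide (K.Adj 2 3)) = true := by
      have c1 := h1 0 1 2 (by decide) (by decide) (by decide)
      have c2 := h1 0 1 3 (by decide) (by decide) (by decide)
      have c3 := h1 0 2 3 (by decide) (by decide) (by decide)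
      have c4 := h1 1 2 3 (by decide) (by decide) (by decide)
      have d1 : ¬ (K.Adj 0 1 ∧ K.Adj 2 3 ∧ ¬ K.Adj 0 2 ∧ ¬ K.Adj 0 3 ∧ ¬ K.Adj 1 2 ∧ ¬ K.Adj 1 3) :=
        fun ⟨a, b, c, d, e, f⟩ => split_no2K2 h2 a b c d e f
      have d2 : ¬ (K.Adj 0 2 ∧ K.Adj 1 3 ∧ ¬ K.Adj 0 1 ∧ ¬ K.Adj 0 3 ∧ ¬ K.Adj 1 2 ∧ ¬ K.Adj 2 3) :=
        fun ⟨a, b, c, d, e, f⟩ => split_no2K2 h2 a b c d (fun h => e h.symm) f
      have d3 : ¬ (K.Adj 0 3 ∧ K.Adj 1 2 ∧ ¬ K.Adj 0 1 ∧ ¬ K.Adj 0 2 ∧ ¬ K.Adj 1 3 ∧ ¬ K.Adj 2 3) :=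
        fun ⟨a, b, c, d, e, f⟩ => split_no2K2 h2 a b c d (fun h => e h.symm) (fun h => f h.symm)
      have e1 : ¬ (¬ K.Adj 0 1 ∧ ¬ K.Adj 2 3 ∧ K.Adj 0 2 ∧ K.Adj 0 3 ∧ K.Adj 1 2 ∧ K.Adj 1 3) :=
        fun ⟨a, b, c, d, e, f⟩ => split_noC4 h2 (by decide) (by decide) a b c d e f
      have e2 : ¬ (¬ K.Adj 0 2 ∧ ¬ K.Adj 1 3 ∧ K.Adj 0 1 ∧ K.Adj 0 3 ∧ K.Adj 1 2 ∧ K.Adj 2 3) :=
        fun ⟨a, b, c, d, e, f⟩ => split_noC4 h2 (by decide) (by decide) a b c d e.symm f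
      have e3 : ¬ (¬ K.Adj 0 3 ∧ ¬ K.Adj 1 2 ∧ K.Adj 0 1 ∧ K.Adj 0 2 ∧ K.Adj 1 3 ∧ K.Adj 2 3) :=
        fun ⟨a, b, c, d, e, f⟩ => split_noC4 h2 (by decide) (by decide) a b c d e.symm f.symm
      have f1 : ¬ (K.Adj 0 1 ∧ K.Adj 0 2 ∧ K.Adj 0 3 ∧ K.Adj 1 2 ∧ K.Adj 1 3 ∧ K.Adj 2 3) :=
        fun ⟨a, b, c, d, e, f⟩ => pt_noK4 h3 a b c d e f
      have g1 : ¬ (K.Adj 0 1 ∧ K.Adj 0 2 ∧ K.Adj 1 2 ∧ ¬ K.Adj 0 3 ∧ ¬ K.Adj 1 3 ∧ ¬ K.Adj 2 3) :=
        fun ⟨a, b, c, d, e, f⟩ => h4 (pc_of (w := 3) a b c (fun h => d h.symm)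
          (fun h => e h.symm) (fun h => f h.symm) (by decide) (by decide) (by decide))
      have g2 : ¬ (K.Adj 0 1 ∧ K.Adj 0 3 ∧ K.Adj 1 3 ∧ ¬ K.Adj 0 2 ∧ ¬ K.Adj 1 2 ∧ ¬ K.Adj 2 3) :=
        fun ⟨a, b, c, d, e, f⟩ => h4 (pc_of (w := 2) a b c (fun h => d h.symm)
          (fun h => e h.symm) f (by decide) (by decide) (by decide))
      have g3 : ¬ (K.Adj 0 2 ∧ K.Adj 0 3 ∧ K.Adj 2 3 ∧ ¬ K.Adj 0 1 ∧ ¬ K.Adj 1 2 ∧ ¬ K.Adj 1 3) :=
        fun ⟨a, b, c, d, e, f⟩ => h4 (pc_of (w := 1) a b c (fun h => d h.symm) e f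
          (by decide) (by decide) (by decide))
      have g4 : ¬ (K.Adj 1 2 ∧ K.Adj 1 3 ∧ K.Adj 2 3 ∧ ¬ K.Adj 0 1 ∧ ¬ K.Adj 0 2 ∧ ¬ K.Adj 0 3) :=
        fun ⟨a, b, c, d, e, f⟩ => h4 (pc_of (w := 0) a b c d e f
          (by decide) (by decide) (by decide))
      clear h1 h2 h3 h4
      unfold cond4
      generalize K.Adj 0 1 = a at *
      generalize K.Adj 0 2 = b at *
      generalize K.Adj 0 3 = c at *
      generalize K.Adj 1 2 = d at *
      generalize K.Adj 1 3 = e at *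
      generalize K.Adj 2 3 = f at *
      by_cases ha : a <;> by_cases hb : b <;> by_cases hc : c <;> by_cases hd : d <;>
        by_cases he : e <;> by_cases hf : f <;> simp_all
    obtain ⟨t, f0, f1, f2, f3, n01, n02, n03, n12, n13, n23, a, b, c, d, e, f⟩ := bool4 _ _ _ _ _ _ hc
    have e01 : K.Adj 0 1 ↔ Tgt t f0 f1 = true := by rw [a]; simp
    have e02 : K.Adj 0 2 ↔ Tgt t f0 f2 = true := by rw [b]; simp
    have e03 : K.Adj 0 3 ↔ Tgt t f0 f3 = true := by rw [c]; simp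
    have e12 : K.Adj 1 2 ↔ Tgt t f1 f2 = true := by rw [d]; simp
    have e13 : K.Adj 1 3 ↔ Tgt t f1 f3 = true := by rw [e]; simp
    have e23 : K.Adj 2 3 ↔ Tgt t f2 f3 = true := by rw [f]; simp
    clear a b c d e f hc
    refine ind_of_tgt K t ![f0, f1, f2, f3] ?_ ?_
    · intro i j hij
      clear e01 e02 e03 e12 e13 e23
      have n10 := n01.symm
      have n20 := n02.symm
      have n30 := n03.symm
      have n21 := n12.symm
      have n31 := n13.symm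
      have n32 := n23.symm
      fin_cases i <;> fin_cases j <;> first | rfl | (exfalso; simp at hij; contradiction)
    · intro i j
      fin_cases i <;> fin_cases j
      · simp [tgt_irrefl]
      · simpa using e01
      · simpa using e02
      · simpa using e03
      · simpa [K.adj_comm 1 0, tgt_symm t f1 f0] using e01
      · simp [tgt_irrefl]
      · simpa using e12
      · simpa using e13
      · simpa [K.adj_comm 2 0, tgt_symm t f2 f0] using e02
      · simpa [K.adj_comm 2 1, tgt_symm t f2 f1] using e12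
      · simp [tgt_irrefl]
      · simpa using e23
      · simpa [K.adj_comm 3 0, tgt_symm t f3 f0] using e03
      · simpa [K.adj_comm 3 1, tgt_symm t f3 f1] using e13
      · simpa [K.adj_comm 3 2, tgt_symm t f3 f2] using e23
      · simp [tgt_irrefl]

theorem classify [Finite W] (H : SimpleGraph W) (h1 : NoInd3 _ H)
    (h2 : IsSplit _ H) (h3 : PT _ H) (h4 : ¬ PC _ H) :
    H.IsIndContained P4 ∨ H.IsIndContained paw ∨ H.IsIndContained diamond := by
  have hc := card_le_four h1 h2 h3 h4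
  have e := Finite.equivFin W
  have i1 : (H.comap e.symm) ≃g H := Iso.comap e.symm H
  have hi : IsITM (H.comap e.symm) H := IsITM.of_ind ⟨i1.toEmbedding⟩
  have hj : H.IsIndContained (H.comap e.symm) := ⟨i1.symm.toEmbedding⟩
  rcases classify_fin hc (H.comap e.symm) (noInd3_itm hi h1) (split_itm hi h2) (pt_itm hi h3)
    (npc_itm hi h4) with h | h | h
  · exact Or.inl (hj.trans h)
  · exact Or.inr (Or.inl (hj.trans h))
  · exact Or.inr (Or.inr (hj.trans h))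

theorem noInd3_cobip (n : ℕ) : NoInd3 _ (famCobip n) := by
  have k1 : ∀ a b : Fin n, (Sum.inl a : Fin n ⊕ (Fin n × Fin n)) ≠ .inl b →
      (famCobip n).Adj (.inl a) (.inl b) := by
    intro a b h
    unfold famCobip
    rw [SimpleGraph.fromRel_adj]
    exact ⟨h, Or.inl (Or.inl ⟨a, b, rfl, rfl⟩)⟩
  have k2 : ∀ a b : Fin n × Fin n, (Sum.inr a : Fin n ⊕ (Fin n × Fin n)) ≠ .inr b →
      (famCobip n).Adj (.inr a) (.inr b) := by
    intro a b h
    unfold famCobip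
    rw [SimpleGraph.fromRel_adj]
    exact ⟨h, Or.inl (Or.inr (Or.inl ⟨a, b, rfl, rfl⟩))⟩
  intro a b c hab hac hbc
  rcases a with a | a <;> rcases b with b | b <;> rcases c with c | c
  all_goals first
    | exact Or.inl (k1 _ _ hab)
    | exact Or.inl (k2 _ _ hab)
    | exact Or.inr (Or.inl (k1 _ _ hac))
    | exact Or.inr (Or.inl (k2 _ _ hac))
    | exact Or.inr (Or.inr (k1 _ _ hbc))
    | exact Or.inr (Or.inr (k2 _ _ hbc))

theorem split_split (n : ℕ) : IsSplit _ (famSplit n) := by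
  refine ⟨Set.range Sum.inl, ?_, ?_⟩
  · rintro _ ⟨a, rfl⟩ _ ⟨b, rfl⟩ h
    simp only [famSplit, SimpleGraph.fromRel_adj]
    exact ⟨h, Or.inl (Or.inl ⟨a, b, rfl, rfl⟩)⟩
  · intro x hx y hy
    rcases x with x | x
    · exact absurd ⟨x, rfl⟩ hx
    · rcases y with y | y
      · exact absurd ⟨y, rfl⟩ hy
      · simp [famSplit, SimpleGraph.fromRel_adj]

/-- the unbounded side -/
theorem necessity [Finite W] (H : SimpleGraph W) (hb : BddItm H)
    (hcw : ∀ (V : Type) [Finite V] [Nonempty V] (G : SimpleGraph V), CwLE G (cliqueWidth G)) :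
    H.IsIndContained P4 ∨ H.IsIndContained paw ∨ H.IsIndContained diamond := by
  obtain ⟨n1, h1⟩ := itm_of_unbounded hb (fun n => famCobip n) (fun c => by
    obtain ⟨n, hn, h⟩ := famCobip_unbounded c 1
    exact ⟨n, ⟨.inl ⟨0, by omega⟩⟩, h⟩) hcw
  obtain ⟨n2, h2⟩ := itm_of_unbounded hb (fun n => famSplit n) (fun c => by
    obtain ⟨n, hn, h⟩ := famSplit_unbounded c 1
    exact ⟨n, ⟨.inl ⟨0, by omega⟩⟩, h⟩) hcw
  obtain ⟨n3, h3⟩ := itm_of_unbounded hb (fun n => wall (n + 1)) (fun c => by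
    exact ⟨9 * c + 2, ⟨(⟨0, by omega⟩, ⟨0, by omega⟩, 0)⟩,
      fun k hk => wall_cw (by omega) _ fun _ h => h⟩) hcw
  obtain ⟨n4, h4⟩ := itm_of_unbounded hb (fun n => (wall (n + 1))ᶜ) (fun c => by
    exact ⟨9 * c + 2, ⟨(⟨0, by omega⟩, ⟨0, by omega⟩, 0)⟩,
      fun k hk => wall_cw (by omega) _ fun _ h => types_compl h⟩) hcw
  exact classify H (noInd3_itm h1 (noInd3_cobip n1)) (split_itm h2 (split_split n2))
    (pt_itm h3 (pt_wall _)) (npc_itm h4 (npc_wall _))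

end Pool.Agent.W124.ITM
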