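import Mathlib
import Pool.Agent.H175R2.Defs

/-! Definitions for MP_d0d08e_co: induced topological minors and clique-width. -/

set_option autoImplicit false

namespace Pool.Agent.W124.ITM

open Pool.Agent.H175R2

/-- the graph obtained from `H` by subdividing the edge `uv` once: the edge `uv` is deleted and the
new vertex `none` is joined to `u` and to `v` -/
def subdivideEdge {W : Type} (H : SimpleGraph W) (u v : W) : SimpleGraph (Option W) :=
  SimpleGraph.fromRel (fun x y =>
    (∃ a b, x = some a ∧ y = some b ∧ H.Adj a b ∧ s(a, b) ≠ s(u, v)) ∨
    (x = none ∧ (y = some u ∨ y = some v)))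

/-- `IsSubdivision H K`: the graph `K` is (isomorphic to) a subdivision of `H`, that is, it is
obtained from `H` by zero or more subdivisions of an edge -/
inductive IsSubdivision : ∀ {W U : Type}, SimpleGraph W → SimpleGraph U → Prop
  | iso {W U : Type} {H : SimpleGraph W} {K : SimpleGraph U} (e : H ≃g K) : IsSubdivision H K
  | step {W U : Type} {H : SimpleGraph W} {K : SimpleGraph U} {u v : W} (huv : H.Adj u v)
      (h : IsSubdivision (subdivideEdge H u v) K) : IsSubdivision H K

/-- `H` is an induced topological minor of `G`: some induced subgraph of `G` is isomorphic to a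
subdivision of `H` -/
def IsITM {W V : Type} (H : SimpleGraph W) (G : SimpleGraph V) : Prop :=
  ∃ (U : Type) (K : SimpleGraph U), IsSubdivision H K ∧ K.IsIndContained G

/-- the graphs without `H` as an induced topological minor have bounded clique-width -/
def BddItm {W : Type} (H : SimpleGraph W) : Prop :=
  ∃ c : ℕ, ∀ (V : Type) [Finite V] (G : SimpleGraph V), ¬ IsITM H G → cliqueWidth G ≤ c

/-- the path `0 1 2 3` -/
def P4 : SimpleGraph (Fin 4) := SimpleGraph.fromRel (fun x y => x.val + 1 = y.val)

end Pool.Agent.W124.ITM
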