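import Pool.Agent.W124.ITM.Small

/-! The 2-connected graphs without the diamond as an induced topological minor. -/

set_option autoImplicit false

namespace Pool.Agent.W124.ITM

open SimpleGraph Pool.Agent.H175R2 Finset Classical

variable {V : Type}

theorem supp_two [Fintype V] {G : SimpleGraph V} (hG : TwoConn G) (h4 : 4 ≤ Fintype.card V)
    {w u v : V} (hd : Deg2 G w u v) : TwoConn ((addE G u v).comap (emb (univ.erase w))) := by
  refine twoConn_del hG h4 (le_addE G hd.1) ?_
  intro a b ha hb hab
  rw [addE_adj hd.1, Sym2.eq_iff]
  rcases hd.2.2.2 a ha with rfl | rfl <;> rcases hd.2.2.2 b hb with rfl | rfl <;> tauto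

/-- adjacency in the deleted graph -/
theorem del_adj [Fintype V] {G : SimpleGraph V} {w x y : V} (hx : x ≠ w) (hy : y ≠ w) :
    (G.comap (emb (univ.erase w))).Adj (mkS x (mem_erase.2 ⟨hx, mem_univ _⟩))
      (mkS y (mem_erase.2 ⟨hy, mem_univ _⟩)) ↔ G.Adj x y := Iff.rfl

theorem complete_del [Fintype V] {G : SimpleGraph V} {w : V}
    (h : ∀ x y, x ≠ y → (G.comap (emb (univ.erase w))).Adj x y) {x y : V} (hx : x ≠ w)
    (hy : y ≠ w) (hxy : x ≠ y) : G.Adj x y := by
  rw [← del_adj hx hy]
  exact h _ _ fun he => hxy (congrArg (emb _) he)

theorem d2_del [Fintype V] {G : SimpleGraph V} {w : V}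
    (h : D2 (G.comap (emb (univ.erase w)))) {x a b c : V} (hx : x ≠ w)
    (ha : a ≠ w) (hb : b ≠ w) (hc : c ≠ w) (xa : G.Adj x a) (xb : G.Adj x b) (xc : G.Adj x c) :
    a = b ∨ a = c ∨ b = c := by
  have := h (mkS x (mem_erase.2 ⟨hx, mem_univ _⟩)) (mkS a (mem_erase.2 ⟨ha, mem_univ _⟩))
    (mkS b (mem_erase.2 ⟨hb, mem_univ _⟩)) (mkS c (mem_erase.2 ⟨hc, mem_univ _⟩)) xa xb xc
  rcases this with h | h | h
  · exact Or.inl (congrArg (emb _) h)
  · exact Or.inr (Or.inl (congrArg (emb _) h))
  · exact Or.inr (Or.inr (congrArg (emb _) h))

theorem diamond_main : ∀ (n : ℕ) (V : Type) [Fintype V] (G : SimpleGraph V), Fintype.card V ≤ n →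
    TwoConn G → ¬ IsITM diamond G → (∀ x y, x ≠ y → G.Adj x y) ∨ D2 G := by
  intro n
  induction n with
  | zero => intro V _ G hn hG _; have := hG.card; omega
  | succ n ih =>
    intro V _ G hn hG hD
    by_cases h3 : Fintype.card V ≤ 3
    · exact Or.inr (d2_small G h3)
    have h4 : 4 ≤ Fintype.card V := by omega
    have hcard : ∀ w : V, Fintype.card (Pool.Agent.H175R2.Sub (univ.erase w)) ≤ n := by
      intro w; rw [card_sub, card_erase_of_mem (mem_univ _), card_univ]; omega
    by_cases h1 : ∃ w u v, Deg2 G w u v ∧ ¬ G.Adj u v
    · -- suppress `w`
      obtain ⟨w, u, v, hd, huv⟩ := h1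
      rcases ih _ _ (hcard w) (supp_two hG h4 hd) (fun h => hD (itm_supp hd huv h)) with h | h
      · by_cases h5 : Fintype.card V ≤ 4
        · right
          apply d2_supp hd huv
          apply d2_small
          rw [card_sub, card_erase_of_mem (mem_univ _), card_univ]; omega
        · exfalso
          have hadj : ∀ x y, x ≠ w → y ≠ w → x ≠ y → s(x, y) ≠ s(u, v) → G.Adj x y := by
            intro x y hx hy hxy hs
            have := complete_del h hx hy hxy
            rw [addE_adj hd.1] at this
            exact this.resolve_right hs
          obtain ⟨a, hau, hav, haw⟩ := exists_other h4 u v w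
          have : ∃ b, b ≠ u ∧ b ≠ v ∧ b ≠ w ∧ b ≠ a := by
            by_contra hcon
            push Not at hcon
            have : (univ : Finset V) ⊆ {u, v, w, a} := by
              intro x _
              simp only [mem_insert, mem_singleton]
              by_contra h
              push Not at h
              exact h.2.2.2 (hcon x h.1 h.2.1 h.2.2.1)
            have h2 := (card_le_card this).trans Finset.card_le_four
            rw [card_univ] at h2
            exact h5 h2
          obtain ⟨b, hbu, hbv, hbw, hba⟩ := this
          have hwu := hd.2.1.ne
          have hwv := hd.2.2.1.ne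
          refine hD (diamond_ind (a := a) (b := b) (c := u) (d := v) (hadj _ _ haw hbw hba.symm ?_)
            (hadj _ _ haw hwu.symm hau ?_) (hadj _ _ haw hwv.symm hav ?_)
            (hadj _ _ hbw hwu.symm hbu ?_) (hadj _ _ hbw hwv.symm hbv ?_) huv hd.1) <;>
          · rw [ne_eq, Sym2.eq_iff]; tauto
      · exact Or.inr (d2_supp hd huv h)
    · push Not at h1
      by_cases h2 : ∃ w u v, Deg2 G w u v
      · obtain ⟨w, u, v, hd⟩ := h2
        have huv := h1 w u v hd
        exfalso
        have hT : TwoConn (G.comap (emb (univ.erase w))) := by
          refine twoConn_del hG h4 le_rfl ?_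
          intro a b ha hb hab
          rcases hd.2.2.2 a ha with rfl | rfl <;> rcases hd.2.2.2 b hb with rfl | rfl
          · exact absurd rfl hab
          · exact huv
          · exact huv.symm
          · exact absurd rfl hab
        obtain ⟨x, hxu, hxv, hxw⟩ := exists_other h4 u v w
        have hwx : ¬ G.Adj w x := by
          intro h
          rcases hd.2.2.2 x h with h | h
          · exact hxu h
          · exact hxv h
        suffices hx : G.Adj u x ∧ G.Adj v x from
          hD (diamond_ind (a := u) (b := v) (c := w) (d := x) huv hd.2.1.symm hx.1 hd.2.2.1.symm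
            hx.2 hwx hxw.symm)
        rcases ih _ _ (hcard w) hT (fun h => hD (h.mono_right (comap_ind _))) with h | h
        · exact ⟨complete_del h hd.2.1.ne.symm hxw hxu.symm,
            complete_del h hd.2.2.1.ne.symm hxw hxv.symm⟩
        · -- `x` has degree two
          have nw : ∀ {a}, G.Adj x a → a ≠ w := by
            rintro a ha rfl; exact hwx ha.symm
          rcases deg_cases hG x with ⟨x1, x2, hx⟩ | ⟨a, b, c, hab, hac, hbc, ha, hb, hc⟩
          · have h12 := h1 x x1 x2 hx
            obtain ⟨hne, hx1, hx2, hxn⟩ := hx
            have hcl : ∀ z, z ≠ w → z = x ∨ z = x1 ∨ z = x2 := by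
              intro z hz
              by_contra hcon
              push Not at hcon
              obtain ⟨s, hs, t, ht, hst⟩ := (hG.del w).2 {x, x1, x2} (by
                intro s hs
                simp only [mem_insert, mem_singleton] at hs
                rcases hs with rfl | rfl | rfl
                · exact mem_erase.2 ⟨hxw, mem_univ _⟩
                · exact mem_erase.2 ⟨nw hx1, mem_univ _⟩
                · exact mem_erase.2 ⟨nw hx2, mem_univ _⟩) ⟨x, by simp⟩
                ⟨z, mem_sdiff.2 ⟨mem_erase.2 ⟨hz, mem_univ _⟩, by simpa using hcon⟩⟩
              rw [mem_sdiff, mem_erase] at ht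
              obtain ⟨⟨htw, _⟩, ht⟩ := ht
              simp only [mem_insert, mem_singleton, not_or] at hs ht
              obtain ⟨t0, t1, t2⟩ := ht
              rcases hs with rfl | rfl | rfl
              · rcases hxn t hst with h | h
                · exact t1 h
                · exact t2 h
              · rcases d2_del h (nw hx1) hxw (nw hx2) htw hx1.symm h12 hst with h | h | h
                · exact hx2.ne h
                · exact t0 h.symm
                · exact t2 h.symm
              · rcases d2_del h (nw hx2) hxw (nw hx1) htw hx2.symm h12.symm hst with h | h | h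
                · exact hx1.ne h
                · exact t0 h.symm
                · exact t1 h.symm
            have hu := hcl u hd.2.1.ne.symm
            have hv := hcl v hd.2.2.1.ne.symm
            constructor
            · rcases hu with h | h | h
              · exact absurd h.symm hxu
              · rw [h]; exact hx1.symm
              · rw [h]; exact hx2.symm
            · rcases hv with h | h | h
              · exact absurd h.symm hxv
              · rw [h]; exact hx1.symm
              · rw [h]; exact hx2.symm
          · exfalso
            rcases d2_del h hxw (nw ha) (nw hb) (nw hc) ha hb hc with h | h | h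
            · exact hab h
            · exact hac h
            · exact hbc h
      · -- all degrees at least three
        push Not at h2
        have hdeg : ∀ x, ∃ a b c, a ≠ b ∧ a ≠ c ∧ b ≠ c ∧ G.Adj x a ∧ G.Adj x b ∧ G.Adj x c := by
          intro x
          rcases deg_cases hG x with ⟨u, v, h⟩ | h
          · exact absurd h (h2 x u v)
          · exact h
        obtain ⟨v, hv⟩ := ckl hG hdeg
        rcases ih _ _ (hcard v) hv (fun h => hD (h.mono_right (comap_ind _))) with h | h
        · left
          have hall : ∀ x, x ≠ v → G.Adj v x := by
            intro x hx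
            by_contra hvx
            obtain ⟨a, b, hab, ha, hb⟩ := two_nbrs hG v
            have hax : a ≠ x := by rintro rfl; exact hvx ha
            have hbx : b ≠ x := by rintro rfl; exact hvx hb
            exact hD (diamond_ind (a := a) (b := b) (c := v) (d := x)
              (complete_del h ha.ne.symm hb.ne.symm hab) ha.symm
              (complete_del h ha.ne.symm hx hax) hb.symm (complete_del h hb.ne.symm hx hbx) hvx
              hx.symm)
          intro x y hxy
          by_cases hx : x = v
          · subst hx; exact hall y hxy.symm
          · by_cases hy : y = v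
            · subst hy; exact (hall x hxy).symm
            · exact complete_del h hx hy hxy
        · left
          have hall : ∀ x, x ≠ v → G.Adj v x := by
            intro x hx
            by_contra hvx
            have nw : ∀ {a}, G.Adj x a → a ≠ v := by
              rintro a ha rfl; exact hvx ha.symm
            obtain ⟨a, b, c, hab, hac, hbc, ha, hb, hc⟩ := hdeg x
            rcases d2_del h hx (nw ha) (nw hb) (nw hc) ha hb hc with h | h | h
            · exact hab h
            · exact hac h
            · exact hbc h
          have hcomp : ∀ a z, a ≠ v → z ≠ v → a ≠ z → G.Adj a z := by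
            intro a z ha hz haz
            by_contra hcon
            obtain ⟨s, hs, t, ht, hst⟩ := (hG.del v).2
              ((univ.erase v).filter (fun s => s = a ∨ G.Adj a s)) (filter_subset _ _)
              ⟨a, mem_filter.2 ⟨mem_erase.2 ⟨ha, mem_univ _⟩, Or.inl rfl⟩⟩
              ⟨z, mem_sdiff.2 ⟨mem_erase.2 ⟨hz, mem_univ _⟩, fun h => by
                rcases (mem_filter.1 h).2 with h | h
                · exact haz h.symm
                · exact hcon h⟩⟩
            rw [mem_filter, mem_erase] at hs
            rw [mem_sdiff, mem_erase, mem_filter, mem_erase] at ht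
            obtain ⟨⟨htv, _⟩, ht⟩ := ht
            have hta : ¬ (t = a ∨ G.Adj a t) := fun h => ht ⟨⟨htv, mem_univ _⟩, h⟩
            push Not at hta
            rcases hs.2 with h' | h'
            · rw [h'] at hst
              exact hta.2 hst
            · exact hD (diamond_ind (a := v) (b := s) (c := a) (d := t) (hall s hs.1.1) (hall a ha)
                (hall t htv) h'.symm hst hta.2 hta.1.symm)
          intro x y hxy
          by_cases hx : x = v
          · subst hx; exact hall y hxy.symm
          · by_cases hy : y = v
            · subst hy; exact (hall x hxy).symm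
            · exact hcomp x y hx hy hxy

end Pool.Agent.W124.ITM
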