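import Pool.Agent.W124.ITM.Dia

/-! The 2-connected graphs without the paw as an induced topological minor. -/

set_option autoImplicit false

namespace Pool.Agent.W124.ITM

open SimpleGraph Pool.Agent.H175R2 Finset Classical

variable {V : Type}

/-- complete multipartite -/
def CM (G : SimpleGraph V) : Prop :=
  ∀ x y z, G.Adj x y → z ≠ x → z ≠ y → G.Adj z x ∨ G.Adj z y

theorem CM.p4free {G : SimpleGraph V} (h : CM G) (D : Finset V) : P4Free G D := by
  intro a _ b _ c _ d _ hac had hbd hab hbc hcd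
  rcases h c d a hcd hac had with h' | h'
  · exact Or.inl h'
  · exact Or.inr (Or.inl h')

theorem cm_del [Fintype V] {G : SimpleGraph V} {w : V}
    (h : CM (G.comap (emb (univ.erase w)))) {x y z : V} (hx : x ≠ w)
    (hy : y ≠ w) (hz : z ≠ w) (hxy : G.Adj x y) (hzx : z ≠ x) (hzy : z ≠ y) :
    G.Adj z x ∨ G.Adj z y := by
  have := h (mkS x (mem_erase.2 ⟨hx, mem_univ _⟩)) (mkS y (mem_erase.2 ⟨hy, mem_univ _⟩))
    (mkS z (mem_erase.2 ⟨hz, mem_univ _⟩)) hxy (fun he => hzx (congrArg (emb _) he))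
    (fun he => hzy (congrArg (emb _) he))
  exact this

/-- connected graphs without the paw that contain a triangle are complete multipartite -/
theorem olariu [Fintype V] {G : SimpleGraph V} (hG : Cn G univ)
    (hpaw : ∀ a b c d, G.Adj a b → G.Adj a c → G.Adj b c → G.Adj a d → G.Adj b d ∨ G.Adj c d ∨
      d = b ∨ d = c)
    {t1 t2 t3 : V} (h12 : G.Adj t1 t2) (h13 : G.Adj t1 t3) (h23 : G.Adj t2 t3) : CM G := by
  -- every vertex is in a triangle
  have hstep : ∀ x y z, G.Adj x y → (∃ s, G.Adj x s ∧ G.Adj y s) → G.Adj x z →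
      ∃ s, G.Adj x s ∧ G.Adj z s := by
    rintro x y z xy ⟨s, xs, ys⟩ xz
    rcases hpaw x y s z xy xs ys xz with h | h | h | h
    · exact ⟨y, xy, h.symm⟩
    · exact ⟨s, xs, h.symm⟩
    · rw [h]; exact ⟨s, xs, ys⟩
    · rw [h]; exact ⟨y, xy, ys.symm⟩
  have hvert : ∀ x, ∃ y s, G.Adj x y ∧ G.Adj x s ∧ G.Adj y s := by
    by_contra hcon
    push Not at hcon
    obtain ⟨x, hx⟩ := hcon
    obtain ⟨a, ha, b, hb, hab⟩ := hG.2 (univ.filter (fun x => ∃ y s, G.Adj x y ∧ G.Adj x s ∧ G.Adj y s))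
      (subset_univ _) ⟨t1, mem_filter.2 ⟨mem_univ _, t2, t3, h12, h13, h23⟩⟩
      ⟨x, mem_sdiff.2 ⟨mem_univ _, fun h => by
        obtain ⟨y, s, h1, h2, h3⟩ := (mem_filter.1 h).2
        exact hx y s h1 h2 h3⟩⟩
    obtain ⟨y, s, ay, as, ys⟩ := (mem_filter.1 ha).2
    obtain ⟨r, ar, br⟩ := hstep a y b ay ⟨s, as, ys⟩ hab
    exact (mem_sdiff.1 hb).2 (mem_filter.2 ⟨mem_univ _, a, r, hab.symm, br, ar⟩)
  have hedge : ∀ x y, G.Adj x y → ∃ s, G.Adj x s ∧ G.Adj y s := by
    intro x y hxy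
    obtain ⟨z, s, xz, xs, zs⟩ := hvert x
    exact hstep x z y xz ⟨s, xs, zs⟩ hxy
  intro a b c hab hca hcb
  by_contra hcon
  push Not at hcon
  -- an edge from the vertices nonadjacent to both to the others
  obtain ⟨d, hd, c', hc', hdc⟩ := hG.2
    (univ.filter (fun x => x = a ∨ x = b ∨ G.Adj x a ∨ G.Adj x b)) (subset_univ _)
    ⟨a, mem_filter.2 ⟨mem_univ _, Or.inl rfl⟩⟩
    ⟨c, mem_sdiff.2 ⟨mem_univ _, fun h => by
      have := (mem_filter.1 h).2
      tauto⟩⟩
  have hc2 : ¬ (c' = a ∨ c' = b ∨ G.Adj c' a ∨ G.Adj c' b) := fun h =>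
    (mem_sdiff.1 hc').2 (mem_filter.2 ⟨mem_univ _, h⟩)
  push Not at hc2
  obtain ⟨c1, c2, c3, c4⟩ := hc2
  -- `d` is not `a`, `b`
  have main : ∀ a b, G.Adj a b → c' ≠ a → c' ≠ b → ¬ G.Adj c' a → ¬ G.Adj c' b → G.Adj d a →
      ¬ G.Adj d b → d ≠ b → False := by
    intro a b hab c1 c2 c3 c4 hda hdb hndb
    obtain ⟨t, at', bt⟩ := hedge a b hab
    rcases hpaw a b t d hab at' bt hda.symm with h | h | h | h
    · exact hdb h.symm
    · -- `t ~ d`
      rcases hpaw d a t c' hda h.symm at' hdc with h' | h' | h' | h'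
      · exact c3 h'.symm
      · rcases hpaw t a b c' at'.symm bt.symm hab h' with h'' | h'' | h'' | h''
        · exact c3 h''.symm
        · exact c4 h''.symm
        · exact c1 h''
        · exact c2 h''
      · exact c1 h'
      · rw [h'] at c3; exact c3 at'.symm
    · exact hndb h
    · rw [h] at hdb; exact hdb bt.symm
  rcases (mem_filter.1 hd).2 with h | h | h | h
  · rw [h] at hdc; exact c3 hdc.symm
  · rw [h] at hdc; exact c4 hdc.symm
  · by_cases hdb : G.Adj d b
    · rcases hpaw d a b c' h hdb hab hdc with h' | h' | h' | h'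
      · exact c3 h'.symm
      · exact c4 h'.symm
      · exact c1 h'
      · exact c2 h'
    · refine main a b hab c1 c2 c3 c4 h hdb ?_
      rintro rfl; exact c4 hdc.symm
  · by_cases hda : G.Adj d a
    · rcases hpaw d a b c' hda h hab hdc with h' | h' | h' | h'
      · exact c3 h'.symm
      · exact c4 h'.symm
      · exact c1 h'
      · exact c2 h'
    · refine main b a hab.symm c2 c1 c4 c3 h hda ?_
      rintro rfl; exact c3 hdc.symm

end Pool.Agent.W124.ITM
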