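import Pool.Agent.W124.ITM.Paw

set_option autoImplicit false

namespace Pool.Agent.W124.ITM

open SimpleGraph Pool.Agent.H175R2 Finset Classical

variable {V : Type}

theorem d2_of_two {G : SimpleGraph V} (h : ∀ x, ∃ p q, ∀ y, G.Adj x y → y = p ∨ y = q) : D2 G := by
  intro x a b c ha hb hc
  obtain ⟨p, q, hpq⟩ := h x
  have h1 := hpq a ha
  have h2 := hpq b hb
  have h3 := hpq c hc
  rcases h1 with rfl | rfl <;> rcases h2 with rfl | rfl <;> rcases h3 with rfl | rfl <;> tauto

/-- the case of a suppressed vertex -/
theorem paw_supp [Fintype V] {G : SimpleGraph V} (hG : TwoConn G) (hP : ¬ IsITM paw G)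
    (htf : ∀ a b c, G.Adj a b → G.Adj a c → ¬ G.Adj b c) {w u v : V} (hd : Deg2 G w u v)
    (hCM : CM ((addE G u v).comap (emb (univ.erase w)))) : CM G ∨ D2 G := by
  have huv : ¬ G.Adj u v := htf w u v hd.2.1 hd.2.2.1
  obtain ⟨hne, hwu, hwv, hw⟩ := hd
  have le : ∀ {x y : V}, G.Adj x y → (addE G u v).Adj x y := fun {x y} h => le_addE G hne h
  have uv' : (addE G u v).Adj u v := by rw [addE_adj hne]; exact Or.inr rfl
  have back : ∀ {x y : V}, (addE G u v).Adj x y → x ≠ u → x ≠ v → G.Adj x y := by
    intro x y h h1 h2
    rw [addE_adj hne, Sym2.eq_iff] at h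
    tauto
  by_cases hedge : ∃ a b, G.Adj a b ∧ a ≠ u ∧ a ≠ v ∧ a ≠ w ∧ b ≠ u ∧ b ≠ v ∧ b ≠ w
  · right
    obtain ⟨a, b, hab, au, av, aw, bu, bv, bw⟩ := hedge
    have nw : ∀ x, x ≠ u → x ≠ v → ¬ G.Adj w x := by
      intro x h1 h2 h
      rcases hw x h with h | h
      · exact h1 h
      · exact h2 h
    have main : ∀ a b, G.Adj a b → a ≠ u → a ≠ v → a ≠ w → b ≠ u → b ≠ v → b ≠ w → G.Adj u a →
        D2 G := by
      intro a b hab au av aw bu bv bw hua
      have hub : ¬ G.Adj u b := fun h => htf u a b hua h hab
      have hvb : G.Adj v b := by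
        rcases cm_del hCM (x := a) (y := b) (z := v) aw bw hwv.ne.symm (le hab) av.symm
          bv.symm with h | h
        · exfalso
          have hva := back h.symm au av
          rcases cm_del hCM (x := u) (y := v) (z := b) hwu.ne.symm hwv.ne.symm bw uv' bu bv with h' | h'
          · exact hub (back h' bu bv).symm
          · exact htf a v b hva hab (back h' bu bv).symm
        · exact (back h.symm bu bv).symm
      have hva : ¬ G.Adj v a := fun h => htf v a b h hvb hab
      have hall : ∀ z, z = u ∨ z = v ∨ z = w ∨ z = a ∨ z = b := by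
        intro z
        by_contra hcon
        push Not at hcon
        obtain ⟨zu, zv, zw, za, zb⟩ := hcon
        rcases cm_del hCM (x := a) (y := b) (z := z) aw bw zw (le hab) za zb with h | h
        · have hza := back h zu zv
          have hzb : ¬ G.Adj z b := fun h => htf z a b hza h hab
          rcases cm_del hCM (x := v) (y := b) (z := z) hwv.ne.symm bw zw (le hvb) zv zb with h | h
          · have hzv := back h zu zv
            exact hP (lollipop (a := v) (b := b) (c := a) (d := z) (p := w) hvb hab.symm hza.symm
              hzv hva (fun h => hzb h.symm) zb.symm hwv (nw b bu bv) (nw a au av) (nw z zu zv))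
          · exact hzb (back h zu zv)
        · have hzb := back h zu zv
          have hza : ¬ G.Adj z a := fun h => htf z a b h hzb hab
          rcases cm_del hCM (x := u) (y := a) (z := z) hwu.ne.symm aw zw (le hua) zu za with h | h
          · have hzu := back h zu zv
            exact hP (lollipop (a := u) (b := a) (c := b) (d := z) (p := w) hua hab hzb.symm
              hzu hub (fun h => hza h.symm) za.symm hwu (nw a au av) (nw b bu bv) (nw z zu zv))
          · exact hza (back h zu zv)
      apply d2_of_two
      intro x
      rcases hall x with rfl | rfl | rfl | rfl | rfl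
      · refine ⟨w, a, fun y hy => ?_⟩
        rcases hall y with rfl | rfl | rfl | rfl | rfl
        · exact absurd hy (G.irrefl)
        · exact absurd hy huv
        · exact Or.inl rfl
        · exact Or.inr rfl
        · exact absurd hy hub
      · refine ⟨w, b, fun y hy => ?_⟩
        rcases hall y with rfl | rfl | rfl | rfl | rfl
        · exact absurd hy.symm huv
        · exact absurd hy (G.irrefl)
        · exact Or.inl rfl
        · exact absurd hy hva
        · exact Or.inr rfl
      · exact ⟨u, v, hw⟩
      · refine ⟨u, b, fun y hy => ?_⟩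
        rcases hall y with rfl | rfl | rfl | rfl | rfl
        · exact Or.inl rfl
        · exact absurd hy.symm hva
        · exact absurd hy.symm (nw _ au av)
        · exact absurd hy (G.irrefl)
        · exact Or.inr rfl
      · refine ⟨v, a, fun y hy => ?_⟩
        rcases hall y with rfl | rfl | rfl | rfl | rfl
        · exact absurd hy.symm hub
        · exact Or.inl rfl
        · exact absurd hy.symm (nw _ bu bv)
        · exact Or.inr rfl
        · exact absurd hy (G.irrefl)
    rcases cm_del hCM (x := a) (y := b) (z := u) aw bw hwu.ne.symm (le hab) au.symm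
      bu.symm with h | h
    · exact main a b hab au av aw bu bv bw (back h.symm au av).symm
    · exact main b a hab.symm bu bv bw au av aw (back h.symm bu bv).symm
  · left
    push Not at hedge
    have hZ : ∀ x, x ≠ u → x ≠ v → G.Adj x u ∧ G.Adj x v := by
      intro x xu xv
      by_cases xw : x = w
      · rw [xw]; exact ⟨hwu, hwv⟩
      · obtain ⟨p, q, hpq, hp, hq⟩ := two_nbrs hG x
        have key : ∀ p, G.Adj x p → p = u ∨ p = v := by
          intro p hp
          by_contra hcon
          push Not at hcon
          have hpw := hedge x p hp xu xv xw hcon.1 hcon.2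
          rw [hpw] at hp
          rcases hw x hp.symm with h | h
          · exact xu h
          · exact xv h
        rcases key p hp with rfl | rfl <;> rcases key q hq with rfl | rfl
        · exact absurd rfl hpq
        · exact ⟨hp, hq⟩
        · exact ⟨hq, hp⟩
        · exact absurd rfl hpq
    have hno : ∀ x y, G.Adj x y → x ≠ u → x ≠ v → y = u ∨ y = v := by
      intro x y hxy xu xv
      by_cases xw : x = w
      · rw [xw] at hxy; exact hw y hxy
      · by_contra hcon
        push Not at hcon
        have hyw := hedge x y hxy xu xv xw hcon.1 hcon.2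
        rw [hyw] at hxy
        rcases hw x hxy.symm with h | h
        · exact xu h
        · exact xv h
    have key : ∀ x y z, G.Adj x y → z ≠ x → z ≠ y → x ≠ u → x ≠ v → G.Adj z x ∨ G.Adj z y := by
      intro x y z hxy hzx hzy xu xv
      by_cases hz : z = u ∨ z = v
      · left
        rcases hz with rfl | rfl
        · exact (hZ x xu xv).1.symm
        · exact (hZ x xu xv).2.symm
      · push Not at hz
        right
        rcases hno x y hxy xu xv with rfl | rfl
        · exact (hZ z hz.1 hz.2).1
        · exact (hZ z hz.1 hz.2).2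
    intro x y z hxy hzx hzy
    by_cases hx : x = u ∨ x = v
    · by_cases hy : y = u ∨ y = v
      · exfalso
        rcases hx with rfl | rfl <;> rcases hy with rfl | rfl
        · exact G.irrefl hxy
        · exact huv hxy
        · exact huv hxy.symm
        · exact G.irrefl hxy
      · push Not at hy
        exact (key y x z hxy.symm hzy hzx hy.1 hy.2).symm
    · push Not at hx
      exact key x y z hxy hzx hzy hx.1 hx.2

theorem paw_main : ∀ (n : ℕ) (V : Type) [Fintype V] (G : SimpleGraph V), Fintype.card V ≤ n →
    TwoConn G → ¬ IsITM paw G → CM G ∨ D2 G := by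
  intro n
  induction n with
  | zero => intro V _ G hn hG _; have := hG.card; omega
  | succ n ih =>
    intro V _ G hn hG hP
    have hpaw : ∀ a b c d, G.Adj a b → G.Adj a c → G.Adj b c → G.Adj a d → G.Adj b d ∨ G.Adj c d ∨
        d = b ∨ d = c := by
      intro a b c d ab ac bc ad
      by_contra hcon
      push Not at hcon
      exact hP (paw_ind ab ac bc ad hcon.1 hcon.2.1)
    by_cases htri : ∃ a b c, G.Adj a b ∧ G.Adj a c ∧ G.Adj b c
    · obtain ⟨a, b, c, ab, ac, bc⟩ := htri
      exact Or.inl (olariu hG.conn hpaw ab ac bc)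
    push Not at htri
    have htf : ∀ a b c, G.Adj a b → G.Adj a c → ¬ G.Adj b c := htri
    by_cases h3 : Fintype.card V ≤ 3
    · exact Or.inr (d2_small G h3)
    have h4 : 4 ≤ Fintype.card V := by omega
    have hcard : ∀ w : V, Fintype.card (Pool.Agent.H175R2.Sub (univ.erase w)) ≤ n := by
      intro w; rw [card_sub, card_erase_of_mem (mem_univ _), card_univ]; omega
    by_cases h1 : ∃ w u v, Deg2 G w u v
    · obtain ⟨w, u, v, hd⟩ := h1
      have huv : ¬ G.Adj u v := htf w u v hd.2.1 hd.2.2.1
      rcases ih _ _ (hcard w) (supp_two hG h4 hd) (fun h => hP (itm_supp hd huv h)) with h | h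
      · exact paw_supp hG hP htf hd h
      · exact Or.inr (d2_supp hd huv h)
    push Not at h1
    have hdeg : ∀ x, ∃ a b c, a ≠ b ∧ a ≠ c ∧ b ≠ c ∧ G.Adj x a ∧ G.Adj x b ∧ G.Adj x c := by
      intro x
      rcases deg_cases hG x with ⟨u, v, h⟩ | h
      · exact absurd h (h1 x u v)
      · exact h
    obtain ⟨v, hv⟩ := ckl hG hdeg
    have h2n : ∀ x, x ≠ v → ∃ a b, a ≠ b ∧ a ≠ v ∧ b ≠ v ∧ G.Adj x a ∧ G.Adj x b := by
      intro x hx
      obtain ⟨a, b, hab, ha, hb⟩ := two_nbrs hv (mkS x (mem_erase.2 ⟨hx, mem_univ _⟩))
      exact ⟨emb _ a, emb _ b, fun h => hab ((emb _).injective h), (mem_erase.1 (emb_mem a)).1,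
        (mem_erase.1 (emb_mem b)).1, ha, hb⟩
    rcases ih _ _ (hcard v) hv (fun h => hP (h.mono_right (comap_ind _))) with h | h
    · left
      have main : ∀ x y p, x ≠ v → y ≠ v → G.Adj x y → ¬ G.Adj v x → ¬ G.Adj v y → G.Adj v p →
          G.Adj p x → False := by
        intro x y p hx hy hxy vx vy vp px
        have hpy : ¬ G.Adj p y := fun h => htf p x y px h hxy
        have npy : p ≠ y := by rintro rfl; exact vy vp
        obtain ⟨x', hx', x'v, yx'⟩ : ∃ x', x' ≠ x ∧ x' ≠ v ∧ G.Adj y x' := by
          obtain ⟨a, b, hab, av, bv, ya, yb⟩ := h2n y hy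
          by_cases hax : a = x
          · exact ⟨b, fun h => hab (hax.trans h.symm), bv, yb⟩
          · exact ⟨a, hax, av, ya⟩
        have npx' : p ≠ x' := by rintro rfl; exact hpy yx'.symm
        have hpx' : G.Adj p x' := by
          rcases cm_del h (x := y) (y := x') (z := p) hy x'v vp.ne.symm yx' npy npx' with h | h
          · exact absurd h hpy
          · exact h
        exact hP (lollipop (a := p) (b := x) (c := y) (d := x') (p := v) px hxy yx' hpx'.symm hpy
          (htf y x x' hxy.symm yx') hx'.symm vp vx vy (fun h => htf v p x' vp h hpx'))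
      have main2 : ∀ y z, G.Adj v y → z ≠ v → z ≠ y → ¬ G.Adj z v → ¬ G.Adj z y → False := by
        intro y z vy zv zy hzv hzy
        obtain ⟨x1, x2, h12, x1v, x2v, y1, y2⟩ := h2n y vy.ne.symm
        have key : ∀ x1, x1 ≠ v → G.Adj y x1 → G.Adj z x1 := by
          intro x1 x1v y1
          have : z ≠ x1 := by rintro rfl; exact hzy y1.symm
          rcases cm_del h (x := y) (y := x1) (z := z) vy.ne.symm x1v zv y1 zy this with h | h
          · exact absurd h hzy
          · exact h
        exact hP (lollipop (a := y) (b := x1) (c := z) (d := x2) (p := v) y1 (key x1 x1v y1).symm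
          (key x2 x2v y2) y2.symm (fun h => hzy h.symm) (htf y x1 x2 y1 y2) h12 vy
          (fun h => htf v y x1 vy h y1) (fun h => hzv h.symm) (fun h => htf v y x2 vy h y2))
      intro x y z hxy hzx hzy
      by_cases hzv : z = v
      · subst hzv
        by_contra hcon
        push Not at hcon
        obtain ⟨p, _, _, hp, _⟩ := two_nbrs hG z
        have hpx : p ≠ x := by rintro rfl; exact hcon.1 hp
        have hpy : p ≠ y := by rintro rfl; exact hcon.2 hp
        rcases cm_del h (x := x) (y := y) (z := p) hzx.symm hzy.symm hp.ne.symm hxy hpx hpy with h' | h'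
        · exact main x y p hzx.symm hzy.symm hxy hcon.1 hcon.2 hp h'
        · exact main y x p hzy.symm hzx.symm hxy.symm hcon.2 hcon.1 hp h'
      · by_cases hxv : x = v
        · subst hxv
          by_contra hcon
          push Not at hcon
          exact main2 y z hxy hzv hzy hcon.1 hcon.2
        · by_cases hyv : y = v
          · subst hyv
            by_contra hcon
            push Not at hcon
            exact main2 x z hxy.symm hzv hzx hcon.2 hcon.1
          · exact cm_del h hxv hyv hzv hxy hzx hzy
    · exfalso
      have hall : ∀ x, x ≠ v → G.Adj v x := by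
        intro x hx
        by_contra hvx
        have nw : ∀ {a}, G.Adj x a → a ≠ v := by
          rintro a ha rfl; exact hvx ha.symm
        obtain ⟨a, b, c, hab, hac, hbc, ha, hb, hc⟩ := hdeg x
        rcases d2_del h hx (nw ha) (nw hb) (nw hc) ha hb hc with h | h | h
        · exact hab h
        · exact hac h
        · exact hbc h
      obtain ⟨x, _, _, hvx, _⟩ := two_nbrs hG v
      obtain ⟨a, _, _, hav, _, hxa, _⟩ := h2n x hvx.ne.symm
      exact htf v x a hvx (hall a hav) hxa

end Pool.Agent.W124.ITM
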