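import Pool.Agent.H175R2.Cut

/-! The truncated wall-like graphs have unbounded clique-width. -/

set_option autoImplicit false

namespace Pool.Agent.W124.ITM

open Pool.Agent.H175R2 Pool.Agent.H175R2.CutAux

/-- cells `(i, j)` consisting of the two triangles `0 1 2` and `3 4 5` joined by the edge `2 3`;
the vertex `4` is joined to the vertex `0` of the next cell in the row and `5` to the vertex `1` of
the next cell in the column -/
def wall (n : ℕ) : SimpleGraph (Fin n × Fin n × Fin 6) :=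
  SimpleGraph.fromRel (fun x y =>
    (x.1 = y.1 ∧ x.2.1 = y.2.1 ∧ ((x.2.2 < 3 ∧ y.2.2 < 3) ∨ (3 ≤ x.2.2 ∧ 3 ≤ y.2.2) ∨
      (x.2.2 = 2 ∧ y.2.2 = 3))) ∨
    (x.1 = y.1 ∧ x.2.1.val + 1 = y.2.1.val ∧ x.2.2 = 4 ∧ y.2.2 = 0) ∨
    (x.1.val + 1 = y.1.val ∧ x.2.1 = y.2.1 ∧ x.2.2 = 5 ∧ y.2.2 = 1))

/-- same triangle -/
def WR {n : ℕ} (x y : Fin n × Fin n × Fin 6) : Prop :=
  x ≠ y ∧ x.1 = y.1 ∧ x.2.1 = y.2.1 ∧ ((x.2.2 < 3 ∧ y.2.2 < 3) ∨ (3 ≤ x.2.2 ∧ 3 ≤ y.2.2))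

theorem WR.symm {n : ℕ} {x y : Fin n × Fin n × Fin 6} (h : WR x y) : WR y x :=
  ⟨h.1.symm, h.2.1.symm, h.2.2.1.symm, by
    rcases h.2.2.2 with h | h
    · exact Or.inl ⟨h.2, h.1⟩
    · exact Or.inr ⟨h.2, h.1⟩⟩

theorem WR.adj {n : ℕ} {x y : Fin n × Fin n × Fin 6} (h : WR x y) : (wall n).Adj x y := by
  unfold wall
  rw [SimpleGraph.fromRel_adj]
  refine ⟨h.1, Or.inl (Or.inl ⟨h.2.1, h.2.2.1, ?_⟩)⟩
  rcases h.2.2.2 with h | h
  · exact Or.inl h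
  · exact Or.inr (Or.inl h)

theorem WR.trans {n : ℕ} {x y z : Fin n × Fin n × Fin 6} (h : WR x y) (h' : WR x z) (hyz : y ≠ z) :
    WR y z := by
  obtain ⟨_, h1, h2, h3⟩ := h
  obtain ⟨_, h1', h2', h3'⟩ := h'
  refine ⟨hyz, h1.symm.trans h1', h2.symm.trans h2', ?_⟩
  rcases h3 with h3 | h3 <;> rcases h3' with h3' | h3'
  · exact Or.inl ⟨h3.2, h3'.2⟩
  · exact absurd h3.1 (not_lt.2 h3'.1)
  · exact absurd h3'.1 (not_lt.2 h3.1)
  · exact Or.inr ⟨h3.2, h3'.2⟩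

theorem WR.two {n : ℕ} {x y z w : Fin n × Fin n × Fin 6} (h : WR x y) (h' : WR x z) (h'' : WR x w) :
    y = z ∨ y = w ∨ z = w := by
  obtain ⟨x1, x2, x3⟩ := x
  obtain ⟨y1, y2, y3⟩ := y
  obtain ⟨z1, z2, z3⟩ := z
  obtain ⟨w1, w2, w3⟩ := w
  obtain ⟨h0, h1, h2, h3⟩ := h
  obtain ⟨h0', h1', h2', h3'⟩ := h'
  obtain ⟨h0'', h1'', h2'', h3''⟩ := h''
  simp only at h1 h2 h1' h2' h1'' h2''
  subst h1 h2 h1' h2' h1'' h2''
  simp only [ne_eq, Prod.mk.injEq, true_and] at *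
  revert x3 y3 z3 w3
  decide

theorem WR.exists {n : ℕ} (x : Fin n × Fin n × Fin 6) : ∃ y z, y ≠ z ∧ WR x y ∧ WR x z := by
  obtain ⟨x1, x2, x3⟩ := x
  have : ∀ t : Fin 6, ∃ a b : Fin 6, a ≠ b ∧ t ≠ a ∧ t ≠ b ∧ ((t < 3 ∧ a < 3) ∨ (3 ≤ t ∧ 3 ≤ a)) ∧
    ((t < 3 ∧ b < 3) ∨ (3 ≤ t ∧ 3 ≤ b)) := by decide
  obtain ⟨a, b, h1, h2, h3, h4, h5⟩ := this x3
  refine ⟨(x1, x2, a), (x1, x2, b), ?_, ⟨?_, rfl, rfl, h4⟩, ⟨?_, rfl, rfl, h5⟩⟩ <;>
    simpa using by assumption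

theorem wall_ext {n : ℕ} {x y z : Fin n × Fin n × Fin 6} (h : (wall n).Adj x y)
    (h' : (wall n).Adj x z) (hy : ¬ WR x y) (hz : ¬ WR x z) : y = z := by
  obtain ⟨⟨x1, hx1⟩, ⟨x2, hx2⟩, x3⟩ := x
  obtain ⟨⟨y1, hy1⟩, ⟨y2, hy2⟩, y3⟩ := y
  obtain ⟨⟨z1, hz1⟩, ⟨z2, hz2⟩, z3⟩ := z
  unfold wall at h h'
  rw [SimpleGraph.fromRel_adj] at h h'
  unfold WR at hy hz
  obtain ⟨h0, h⟩ := h
  obtain ⟨h0', h'⟩ := h'
  simp only [Fin.mk.injEq, h0, h0', ne_eq, not_false_eq_true, true_and] at h h' hy hz ⊢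
  have e : ((⟨y1, hy1⟩ : Fin n), (⟨y2, hy2⟩ : Fin n), y3) = (⟨z1, hz1⟩, ⟨z2, hz2⟩, z3) ↔
      (y1 = z1 ∧ y2 = z2 ∧ y3.val = z3.val) := by
    simp [Prod.ext_iff, Fin.ext_iff]
  rw [e]
  have k0 : ∀ a b : Fin 6, a = b ↔ a.val = b.val := fun a b => Fin.ext_iff
  have k1 : ∀ a b : Fin 6, a < b ↔ a.val < b.val := fun a b => Iff.rfl
  have k2 : ∀ a b : Fin 6, a ≤ b ↔ a.val ≤ b.val := fun a b => Iff.rfl
  simp only [k0, k1, k2] at h h' hy hz
  have v0 : (0 : Fin 6).val = 0 := rfl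
  have v1 : (1 : Fin 6).val = 1 := rfl
  have v2 : (2 : Fin 6).val = 2 := rfl
  have v3 : (3 : Fin 6).val = 3 := rfl
  have v4 : (4 : Fin 6).val = 4 := rfl
  have v5 : (5 : Fin 6).val = 5 := rfl
  rw [v0, v1, v2, v3, v4, v5] at h h'
  rw [v3] at hy hz
  omega

theorem wall_deg {n : ℕ} {x a b c d : Fin n × Fin n × Fin 6} (ha : (wall n).Adj x a)
    (hb : (wall n).Adj x b) (hc : (wall n).Adj x c) (hd : (wall n).Adj x d) :
    a = b ∨ a = c ∨ a = d ∨ b = c ∨ b = d ∨ c = d := by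
  by_cases a1 : WR x a <;> by_cases b1 : WR x b <;> by_cases c1 : WR x c <;> by_cases d1 : WR x d
  all_goals first
    | (have := wall_ext ha hb a1 b1; tauto)
    | (have := wall_ext ha hc a1 c1; tauto)
    | (have := wall_ext ha hd a1 d1; tauto)
    | (have := wall_ext hb hc b1 c1; tauto)
    | (have := wall_ext hb hd b1 d1; tauto)
    | (have := wall_ext hc hd c1 d1; tauto)
    | (have := a1.two b1 c1; tauto)
    | (have := a1.two b1 d1; tauto)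
    | (have := a1.two c1 d1; tauto)
    | (have := b1.two c1 d1; tauto)

/-- counting edges across a cut -/
theorem cut_count {V ι : Type} (G : SimpleGraph V) {A : Set V} {k : ℕ} (h : Types G A k)
    (hdeg : ∀ x a b c d : V, G.Adj x a → G.Adj x b → G.Adj x c → G.Adj x d →
      a = b ∨ a = c ∨ a = d ∨ b = c ∨ b = d ∨ c = d)
    (I : Finset ι) (x y : ι → V) (hx : ∀ i ∈ I, x i ∈ A) (hy : ∀ i ∈ I, y i ∉ A)
    (hxy : ∀ i ∈ I, G.Adj (x i) (y i)) (hinj : Set.InjOn x I) : I.card ≤ 3 * k := by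
  classical
  obtain ⟨l, hl⟩ := h
  by_contra hcon
  push Not at hcon
  have hcard : (Finset.univ : Finset (Fin k)).card * 3 < I.card := by
    simp; omega
  obtain ⟨t, _, ht⟩ := Finset.exists_lt_card_fiber_of_mul_lt_card_of_maps_to
    (f := fun i => l (x i)) (s := I) (t := Finset.univ) (fun _ _ => Finset.mem_univ _) hcard
  have h4 : 4 ≤ (Finset.filter (fun i => l (x i) = t) I).card := ht
  obtain ⟨J, hJ, hJc⟩ := Finset.exists_subset_card_eq h4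
  obtain ⟨a, b, c, d, hab, hac, had, hbc, hbd, hcd, rfl⟩ := Finset.card_eq_four.1 hJc
  have ma := Finset.mem_filter.1 (hJ (by simp : a ∈ ({a, b, c, d} : Finset ι)))
  have mb := Finset.mem_filter.1 (hJ (by simp : b ∈ ({a, b, c, d} : Finset ι)))
  have mc := Finset.mem_filter.1 (hJ (by simp : c ∈ ({a, b, c, d} : Finset ι)))
  have md := Finset.mem_filter.1 (hJ (by simp : d ∈ ({a, b, c, d} : Finset ι)))
  have ea := hxy a ma.1
  have key : ∀ i, i ∈ I ∧ l (x i) = t → G.Adj (y a) (x i) := by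
    rintro i ⟨hi, hit⟩
    exact ((hl _ (hx a ma.1) _ (hx i hi) (ma.2.trans hit.symm) _ (hy a ma.1)).1 ea).symm
  have := hdeg (y a) (x a) (x b) (x c) (x d) (key a ma) (key b mb) (key c mc) (key d md)
  have inj : ∀ i j, i ∈ I ∧ l (x i) = t → j ∈ I ∧ l (x j) = t → x i = x j → i = j :=
    fun i j hi hj h => hinj hi.1 hj.1 h
  rcases this with h | h | h | h | h | h
  · exact hab (inj _ _ ma mb h)
  · exact hac (inj _ _ ma mc h)
  · exact had (inj _ _ ma md h)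
  · exact hbc (inj _ _ mb mc h)
  · exact hbd (inj _ _ mb md h)
  · exact hcd (inj _ _ mc md h)

/-- switching along a path with five vertices -/
theorem switch5 {V : Type} (G : SimpleGraph V) (A : Set V) {a b c d e : V} (h1 : G.Adj a b)
    (h2 : G.Adj b c) (h3 : G.Adj c d) (h4 : G.Adj d e)
    (h : (a ∈ A ∧ e ∉ A) ∨ (a ∉ A ∧ e ∈ A)) :
    ∃ x y, x ∈ A ∧ y ∉ A ∧ G.Adj x y ∧ (x = a ∨ x = b ∨ x = c ∨ x = d ∨ x = e) := by
  by_cases hb : b ∈ A <;> by_cases hc : c ∈ A <;> by_cases hd : d ∈ A <;>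
    rcases h with ⟨ha, he⟩ | ⟨ha, he⟩
  all_goals first
    | exact ⟨a, b, ha, hb, h1, by tauto⟩
    | exact ⟨b, a, hb, ha, h1.symm, by tauto⟩
    | exact ⟨b, c, hb, hc, h2, by tauto⟩
    | exact ⟨c, b, hc, hb, h2.symm, by tauto⟩
    | exact ⟨c, d, hc, hd, h3, by tauto⟩
    | exact ⟨d, c, hd, hc, h3.symm, by tauto⟩
    | exact ⟨d, e, hd, he, h4, by tauto⟩
    | exact ⟨e, d, he, hd, h4.symm, by tauto⟩

theorem row_switch {n : ℕ} (A : Set (Fin n × Fin n × Fin 6)) (i : Fin n)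
    (h : i ∈ mixed {p : Fin n × Fin n | (p.1, p.2, (2 : Fin 6)) ∈ A}) :
    ∃ x y, x ∈ A ∧ y ∉ A ∧ (wall n).Adj x y ∧ x.1 = i := by
  simp only [mixed, Finset.mem_filter, Finset.mem_univ, true_and, Set.mem_ofPred_eq] at h
  obtain ⟨a, b, ha, hb, hab⟩ := step_exists (fun j => (i, j, (2 : Fin 6)) ∈ A) h.1 h.2
  obtain ⟨u, v, huv, hm⟩ : ∃ u v : Fin n, u.val + 1 = v.val ∧
      (((i, u, (2 : Fin 6)) ∈ A ∧ (i, v, (2 : Fin 6)) ∉ A) ∨
        ((i, u, (2 : Fin 6)) ∉ A ∧ (i, v, (2 : Fin 6)) ∈ A)) := by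
    rcases hab with hab | hab
    · exact ⟨a, b, hab, Or.inl ⟨ha, hb⟩⟩
    · exact ⟨b, a, hab, Or.inr ⟨hb, ha⟩⟩
  obtain ⟨x, y, hx, hy, hxy, he⟩ := switch5 (wall n) A (a := (i, u, 2)) (b := (i, u, 3))
    (c := (i, u, 4)) (d := (i, v, 0)) (e := (i, v, 2))
    (by simp [wall, SimpleGraph.fromRel_adj])
    (by simp [wall, SimpleGraph.fromRel_adj])
    (by simp [wall, SimpleGraph.fromRel_adj, huv])
    (by simp [wall, SimpleGraph.fromRel_adj]) hm
  refine ⟨x, y, hx, hy, hxy, ?_⟩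
  rcases he with rfl | rfl | rfl | rfl | rfl <;> rfl

theorem col_switch {n : ℕ} (A : Set (Fin n × Fin n × Fin 6)) (i : Fin n)
    (h : i ∈ mixed {p : Fin n × Fin n | (p.2, p.1, (2 : Fin 6)) ∈ A}) :
    ∃ x y, x ∈ A ∧ y ∉ A ∧ (wall n).Adj x y ∧ x.2.1 = i := by
  simp only [mixed, Finset.mem_filter, Finset.mem_univ, true_and, Set.mem_ofPred_eq] at h
  obtain ⟨a, b, ha, hb, hab⟩ := step_exists (fun j => (j, i, (2 : Fin 6)) ∈ A) h.1 h.2
  obtain ⟨u, v, huv, hm⟩ : ∃ u v : Fin n, u.val + 1 = v.val ∧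
      (((u, i, (2 : Fin 6)) ∈ A ∧ (v, i, (2 : Fin 6)) ∉ A) ∨
        ((u, i, (2 : Fin 6)) ∉ A ∧ (v, i, (2 : Fin 6)) ∈ A)) := by
    rcases hab with hab | hab
    · exact ⟨a, b, hab, Or.inl ⟨ha, hb⟩⟩
    · exact ⟨b, a, hab, Or.inr ⟨hb, ha⟩⟩
  obtain ⟨x, y, hx, hy, hxy, he⟩ := switch5 (wall n) A (a := (u, i, 2)) (b := (u, i, 3))
    (c := (u, i, 5)) (d := (v, i, 1)) (e := (v, i, 2))
    (by simp [wall, SimpleGraph.fromRel_adj])
    (by simp [wall, SimpleGraph.fromRel_adj])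
    (by simp [wall, SimpleGraph.fromRel_adj, huv])
    (by simp [wall, SimpleGraph.fromRel_adj]) hm
  refine ⟨x, y, hx, hy, hxy, ?_⟩
  rcases he with rfl | rfl | rfl | rfl | rfl <;> rfl

theorem row_le {n k : ℕ} (A : Set (Fin n × Fin n × Fin 6)) (h : Types (wall n) A k) :
    (mixed {p : Fin n × Fin n | (p.1, p.2, (2 : Fin 6)) ∈ A}).card ≤ 3 * k := by
  choose! x y h1 h2 h3 h4 using row_switch A
  refine cut_count (wall n) h (fun _ _ _ _ _ => wall_deg) _ x y h1 h2 h3 ?_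
  intro i hi j hj hij
  rw [← h4 i hi, ← h4 j hj, hij]

theorem col_le {n k : ℕ} (A : Set (Fin n × Fin n × Fin 6)) (h : Types (wall n) A k) :
    (mixed {p : Fin n × Fin n | (p.2, p.1, (2 : Fin 6)) ∈ A}).card ≤ 3 * k := by
  choose! x y h1 h2 h3 h4 using col_switch A
  refine cut_count (wall n) h (fun _ _ _ _ _ => wall_deg) _ x y h1 h2 h3 ?_
  intro i hi j hj hij
  rw [← h4 i hi, ← h4 j hj, hij]

theorem wall_core {n k : ℕ} (hn : 9 * k + 1 ≤ n) (A : Set (Fin n × Fin n × Fin 6))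
    (hT : Types (wall n) A k)
    (h1 : n * n ≤ 3 * (A ∩ Set.range (fun p : Fin n × Fin n => (p.1, p.2, (2 : Fin 6)))).ncard)
    (h2 : 3 * (A ∩ Set.range (fun p : Fin n × Fin n => (p.1, p.2, (2 : Fin 6)))).ncard ≤ 2 * (n * n)) :
    False := by
  set B : Set (Fin n × Fin n) := {p : Fin n × Fin n | (p.1, p.2, (2 : Fin 6)) ∈ A} with hB
  have hinj : Function.Injective (fun p : Fin n × Fin n => (p.1, p.2, (2 : Fin 6))) := by
    rintro ⟨a, b⟩ ⟨c, d⟩ h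
    simpa using h
  have hBA : (A ∩ Set.range (fun p : Fin n × Fin n => (p.1, p.2, (2 : Fin 6)))).ncard = B.ncard := by
    rw [← Set.ncard_image_of_injective B hinj]
    congr 1
    ext x
    simp only [Set.mem_inter_iff, Set.mem_range, Set.mem_image, hB, Set.mem_ofPred_eq]
    constructor
    · rintro ⟨hx, p, rfl⟩
      exact ⟨p, hx, rfl⟩
    · rintro ⟨p, hp, rfl⟩
      exact ⟨hp, p, rfl⟩
  rw [hBA] at h1 h2
  have hcompl : B.ncard + Bᶜ.ncard = n * n := by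
    rw [Set.ncard_add_ncard_compl]; simp
  have hm := row_le A hT
  have hm' := col_le A hT
  rw [← hB] at hm
  have hbig : n ≤ 3 * (mixed B).card → False := by
    intro h; omega
  by_cases hfull : ∃ i, ∀ j, (i, j) ∈ B
  · by_cases hempty : ∃ i, ∀ j, (i, j) ∉ B
    · obtain ⟨i, hi⟩ := hfull
      obtain ⟨i', hi'⟩ := hempty
      have : mixed {p : Fin n × Fin n | (p.2, p.1, (2 : Fin 6)) ∈ A} = Finset.univ := by
        ext j
        simp only [mixed, Finset.mem_filter, Finset.mem_univ, true_and, iff_true]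
        exact ⟨⟨i, hi j⟩, ⟨i', hi' j⟩⟩
      rw [this] at hm'
      simp at hm'
      omega
    · push Not at hempty
      have h3 : Bᶜ.ncard ≤ (mixed Bᶜ).card * n := by
        apply card_le_mixed
        rintro i ⟨j, hj⟩
        rw [mixed_compl]
        simp only [mixed, Finset.mem_filter, Finset.mem_univ, true_and]
        exact ⟨hempty i, j, hj⟩
      rw [mixed_compl] at h3
      apply hbig
      have : n * n ≤ 3 * ((mixed B).card * n) := by omega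
      have : n * n ≤ (3 * (mixed B).card) * n := by linarith
      exact Nat.le_of_mul_le_mul_right this (by omega)
  · push Not at hfull
    have h3 : B.ncard ≤ (mixed B).card * n := by
      apply card_le_mixed
      rintro i ⟨j, hj⟩
      simp only [mixed, Finset.mem_filter, Finset.mem_univ, true_and]
      exact ⟨⟨j, hj⟩, hfull i⟩
    apply hbig
    have : n * n ≤ (3 * (mixed B).card) * n := by linarith
    exact Nat.le_of_mul_le_mul_right this (by omega)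

theorem types_compl {V : Type} {G : SimpleGraph V} {A : Set V} {k : ℕ} (h : Types Gᶜ A k) :
    Types G A k := by
  obtain ⟨l, hl⟩ := h
  refine ⟨l, fun x hx y hy hxy z hz => ?_⟩
  have := hl x hx y hy hxy z hz
  rw [SimpleGraph.compl_adj, SimpleGraph.compl_adj] at this
  have hxz : x ≠ z := fun h => hz (h ▸ hx)
  have hyz : y ≠ z := fun h => hz (h ▸ hy)
  simp only [ne_eq, hxz, not_false_eq_true, true_and, hyz, not_iff_not] at this
  exact this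

theorem wall_cw {n k : ℕ} (hn : 9 * k + 2 ≤ n) (G : SimpleGraph (Fin n × Fin n × Fin 6))
    (hG : ∀ A, Types G A k → Types (wall n) A k) : ¬ CwLE G k := by
  intro hcw
  have hinj : Function.Injective (fun p : Fin n × Fin n => (p.1, p.2, (2 : Fin 6))) := by
    rintro ⟨a, b⟩ ⟨c, d⟩ h
    simpa using h
  have hW : (Set.range (fun p : Fin n × Fin n => (p.1, p.2, (2 : Fin 6)))).ncard = n * n := by
    rw [← Set.image_univ, Set.ncard_image_of_injective _ hinj, Set.ncard_univ]; simp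
  obtain ⟨A, hT, h1, h2⟩ := balanced_cut G k hcw
    (Set.range (fun p : Fin n × Fin n => (p.1, p.2, (2 : Fin 6)))) (by rw [hW]; nlinarith)
  rw [hW] at h1 h2
  exact wall_core (by omega) A (hG A hT) h1 h2

theorem wall_unbounded (c : ℕ) : ∃ n, ∀ k ≤ c, ¬ CwLE (wall n) k :=
  ⟨9 * c + 2, fun _ hk => wall_cw (by omega) _ fun _ h => h⟩

theorem wall_compl_unbounded (c : ℕ) : ∃ n, ∀ k ≤ c, ¬ CwLE (wall n)ᶜ k :=
  ⟨9 * c + 2, fun _ hk => wall_cw (by omega) _ fun _ h => types_compl h⟩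

end Pool.Agent.W124.ITM
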