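import Pool.Agent.W124.ITM.Basic
import Pool.Agent.W124.ITM.Wall
import Pool.Agent.H175R2.Fam
import Pool.Agent.H175R2.Cw

/-! Properties inherited by induced topological minors; the unbounded side. -/

set_option autoImplicit false

namespace Pool.Agent.W124.ITM

open SimpleGraph Pool.Agent.H175R2

variable {W U V : Type}

theorem of_itm (P : ∀ V : Type, SimpleGraph V → Prop)
    (hind : ∀ (W V : Type) (H : SimpleGraph W) (G : SimpleGraph V), H.IsIndContained G → P V G → P W H)
    (hsub : ∀ (W : Type) (H : SimpleGraph W) (u v : W), H.Adj u v →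
      P (Option W) (subdivideEdge H u v) → P W H)
    {W V : Type} {H : SimpleGraph W} {G : SimpleGraph V} (h : IsITM H G) (hG : P V G) : P W H := by
  obtain ⟨U, K, hK, hi⟩ := h
  have hK' : P U K := hind _ _ _ _ hi hG
  clear hi hG
  induction hK with
  | iso e => exact hind _ _ _ _ ⟨e.toEmbedding⟩ hK'
  | step huv _ ih => exact hsub _ _ _ _ huv (ih hK')

open Classical in
/-- the neighbour of `x` in the subdivided graph in direction `a` -/
noncomputable def nbr (u v x a : W) : Option W := if s(x, a) = s(u, v) then none else some a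

theorem nbr_adj {H : SimpleGraph W} {u v x a : W} (h : H.Adj x a) :
    (subdivideEdge H u v).Adj (some x) (nbr u v x a) := by
  unfold nbr
  split_ifs with h'
  · rw [sub_some_none]
    rw [Sym2.eq_iff] at h'
    tauto
  · rw [sub_some_some]
    exact ⟨h, h'⟩

theorem nbr_inj {u v x a b : W} (h : nbr u v x a = nbr u v x b) : a = b := by
  unfold nbr at h
  split_ifs at h with h1 h2
  · rw [← h2, Sym2.eq_iff] at h1
    rcases h1 with h1 | h1
    · exact h1.2
    · rw [h1.2, ← h1.1]
  · exact Option.some_injective _ h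

/-! ### no independent triple -/

def NoInd3 (V : Type) (G : SimpleGraph V) : Prop :=
  ∀ a b c : V, a ≠ b → a ≠ c → b ≠ c → G.Adj a b ∨ G.Adj a c ∨ G.Adj b c

theorem noInd3_itm {H : SimpleGraph W} {G : SimpleGraph V} (h : IsITM H G) (hG : NoInd3 V G) :
    NoInd3 W H := by
  refine of_itm NoInd3 ?_ ?_ h hG
  · rintro W V H G ⟨φ⟩ hG a b c hab hac hbc
    have := hG (φ a) (φ b) (φ c) (φ.injective.ne hab) (φ.injective.ne hac) (φ.injective.ne hbc)
    simpa only [φ.map_adj_iff] using this
  · intro W H u v huv hs a b c hab hac hbc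
    have := hs (some a) (some b) (some c) (by simpa) (by simpa) (by simpa)
    simp only [sub_some_some] at this
    tauto

/-! ### split graphs -/

def IsSplit (V : Type) (G : SimpleGraph V) : Prop :=
  ∃ A : Set V, (∀ x ∈ A, ∀ y ∈ A, x ≠ y → G.Adj x y) ∧ (∀ x ∉ A, ∀ y ∉ A, ¬ G.Adj x y)

theorem split_itm {H : SimpleGraph W} {G : SimpleGraph V} (h : IsITM H G) (hG : IsSplit V G) :
    IsSplit W H := by
  refine of_itm IsSplit ?_ ?_ h hG
  · rintro W V H G ⟨φ⟩ ⟨A, h1, h2⟩
    refine ⟨φ ⁻¹' A, fun x hx y hy hxy => ?_, fun x hx y hy => ?_⟩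
    · rw [← φ.map_adj_iff]; exact h1 _ hx _ hy (φ.injective.ne hxy)
    · rw [← φ.map_adj_iff]; exact h2 _ hx _ hy
  · rintro W H u v huv ⟨A, h1, h2⟩
    by_cases hc : some u ∉ A ∧ some v ∉ A
    · have hn : none ∈ A := by
        by_contra hn
        exact h2 _ hn _ hc.1 (by rw [sub_none_some]; exact Or.inl rfl)
      have hA : ∀ x, some x ∉ A := by
        intro x hx
        have := h1 _ hn _ hx (by simp)
        rw [sub_none_some] at this
        rcases this with rfl | rfl
        · exact hc.1 hx
        · exact hc.2 hx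
      refine ⟨{u}, ?_, ?_⟩
      · rintro x rfl y rfl hxy; exact absurd rfl hxy
      · intro x hx y hy hxy
        rw [Set.mem_singleton_iff] at hx hy
        have := h2 _ (hA x) _ (hA y)
        rw [sub_some_some, not_and, not_not] at this
        have := this hxy
        rw [Sym2.eq_iff] at this
        rcases this with h | h
        · exact hx h.1
        · exact hy h.2
    · refine ⟨{x | some x ∈ A}, fun x hx y hy hxy => ?_, fun x hx y hy => ?_⟩
      · have := h1 _ hx _ hy (by simpa)
        rw [sub_some_some] at this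
        exact this.1
      · intro hxy
        have := h2 _ hx _ hy
        rw [sub_some_some, not_and, not_not] at this
        have := this hxy
        rw [Sym2.eq_iff] at this
        rcases this with h | h
        · exact hc ⟨h.1 ▸ hx, h.2 ▸ hy⟩
        · exact hc ⟨h.2 ▸ hy, h.1 ▸ hx⟩

/-! ### property T -/

/-- maximum degree three and disjoint triangles cover the vertices of degree three -/
def PT (V : Type) (G : SimpleGraph V) : Prop :=
  (∀ x a b c d : V, G.Adj x a → G.Adj x b → G.Adj x c → G.Adj x d →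
      a = b ∨ a = c ∨ a = d ∨ b = c ∨ b = d ∨ c = d) ∧
  ∃ R : V → V → Prop, (∀ x y, R x y → R y x) ∧ (∀ x y, R x y → G.Adj x y) ∧
    (∀ x y z, R x y → R x z → y ≠ z → R y z) ∧
    (∀ x y z w, R x y → R x z → R x w → y = z ∨ y = w ∨ z = w) ∧
    (∀ x a b c, G.Adj x a → G.Adj x b → G.Adj x c → a ≠ b → a ≠ c → b ≠ c →
      ∃ p q, p ≠ q ∧ R x p ∧ R x q)

theorem pt_wall (n : ℕ) : PT _ (wall n) :=
  ⟨fun _ _ _ _ _ => wall_deg, WR, fun _ _ => WR.symm, fun _ _ => WR.adj, fun _ _ _ => WR.trans,
    fun _ _ _ _ => WR.two, fun x _ _ _ _ _ _ _ _ _ => WR.exists x⟩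

theorem pt_itm {H : SimpleGraph W} {G : SimpleGraph V} (h : IsITM H G) (hG : PT V G) :
    PT W H := by
  refine of_itm PT ?_ ?_ h hG
  · rintro W V H G ⟨φ⟩ ⟨h1, R, hs, ha, ht, h2, h3⟩
    refine ⟨fun x a b c d xa xb xc xd => ?_, fun x y => R (φ x) (φ y), fun x y h => hs _ _ h,
      fun x y h => ?_, fun x y z h h' hyz => ht _ _ _ h h' (φ.injective.ne hyz),
      fun x y z w h h' h'' => ?_, fun x a b c xa xb xc hab hac hbc => ?_⟩
    · have := h1 (φ x) (φ a) (φ b) (φ c) (φ d) (φ.map_adj_iff.2 xa) (φ.map_adj_iff.2 xb)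
        (φ.map_adj_iff.2 xc) (φ.map_adj_iff.2 xd)
      simpa only [EmbeddingLike.apply_eq_iff_eq] using this
    · rw [← φ.map_adj_iff]; exact ha _ _ h
    · have := h2 _ _ _ _ h h' h''
      simpa only [EmbeddingLike.apply_eq_iff_eq] using this
    · obtain ⟨p, q, hpq, hp, hq⟩ := h3 (φ x) (φ a) (φ b) (φ c) (φ.map_adj_iff.2 xa)
        (φ.map_adj_iff.2 xb) (φ.map_adj_iff.2 xc) (φ.injective.ne hab) (φ.injective.ne hac)
        (φ.injective.ne hbc)
      have key : ∀ p, R (φ x) p → ∃ a, φ a = p := by
        intro p hp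
        have e1 : φ a ≠ φ b := φ.injective.ne hab
        have e2 : φ a ≠ φ c := φ.injective.ne hac
        have e3 : φ b ≠ φ c := φ.injective.ne hbc
        rcases h1 (φ x) (φ a) (φ b) (φ c) p (φ.map_adj_iff.2 xa) (φ.map_adj_iff.2 xb)
          (φ.map_adj_iff.2 xc) (ha _ _ hp) with h | h | h | h | h | h
        · exact absurd h e1
        · exact absurd h e2
        · exact ⟨_, h⟩
        · exact absurd h e3
        · exact ⟨_, h⟩
        · exact ⟨_, h⟩
      obtain ⟨p', rfl⟩ := key p hp
      obtain ⟨q', rfl⟩ := key q hq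
      exact ⟨p', q', fun h => hpq (by rw [h]), hp, hq⟩
  · rintro W H u v huv ⟨h1, R, hs, ha, ht, h2, h3⟩
    refine ⟨fun x a b c d xa xb xc xd => ?_, fun x y => R (some x) (some y), fun x y h => hs _ _ h,
      fun x y h => ?_, fun x y z h h' hyz => ht _ _ _ h h' (by simpa),
      fun x y z w h h' h'' => ?_, fun x a b c xa xb xc hab hac hbc => ?_⟩
    · rcases h1 (some x) _ _ _ _ (nbr_adj (u := u) (v := v) xa) (nbr_adj xb) (nbr_adj xc)
        (nbr_adj xd) with h | h | h | h | h | h <;> have := nbr_inj h <;> tauto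
    · have := ha _ _ h
      rw [sub_some_some] at this
      exact this.1
    · have := h2 _ _ _ _ h h' h''
      simpa using this
    · obtain ⟨p, q, hpq, hp, hq⟩ := h3 (some x) _ _ _ (nbr_adj (u := u) (v := v) xa) (nbr_adj xb)
        (nbr_adj xc) (fun h => hab (nbr_inj h)) (fun h => hac (nbr_inj h))
        (fun h => hbc (nbr_inj h))
      have key : ∀ p q, R (some x) p → R (some x) q → p ≠ q → p ≠ none := by
        rintro p q hp hq hpq rfl
        have hnq := ha _ _ (ht _ _ _ hp hq hpq)
        have hxn := ha _ _ hp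
        have hxq := ha _ _ hq
        cases q with
        | none => exact hpq rfl
        | some q =>
          rw [sub_none_some] at hnq
          rw [sub_some_none] at hxn
          rw [sub_some_some] at hxq
          have hne := hxq.1.ne
          apply hxq.2
          rw [Sym2.eq_iff]
          rcases hnq with rfl | rfl <;> rcases hxn with rfl | rfl <;> simp_all
      have hp' := key p q hp hq hpq
      have hq' := key q p hq hp hpq.symm
      cases p with
      | none => exact absurd rfl hp'
      | some p =>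
        cases q with
        | none => exact absurd rfl hq'
        | some q => exact ⟨p, q, fun h => hpq (by rw [h]), hp, hq⟩

/-! ### property C -/

/-- some vertex has no neighbour in a nonempty set in which all degrees are at least two -/
def PC (V : Type) (G : SimpleGraph V) : Prop :=
  ∃ (v : V) (S : Set V), S.Nonempty ∧ v ∉ S ∧ (∀ s ∈ S, ¬ G.Adj v s) ∧
    ∀ s ∈ S, ∃ a ∈ S, ∃ b ∈ S, a ≠ b ∧ G.Adj s a ∧ G.Adj s b

theorem npc_itm {H : SimpleGraph W} {G : SimpleGraph V} (h : IsITM H G) (hG : ¬ PC V G) :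
    ¬ PC W H := by
  refine of_itm (fun V G => ¬ PC V G) ?_ ?_ h hG
  · rintro W V H G ⟨φ⟩ hG ⟨v, S, hS, hv, hvS, hd⟩
    apply hG
    refine ⟨φ v, φ '' S, hS.image _, ?_, ?_, ?_⟩
    · rintro ⟨x, hx, h⟩
      rw [φ.injective h] at hx
      exact hv hx
    · rintro _ ⟨x, hx, rfl⟩
      rw [φ.map_adj_iff]; exact hvS x hx
    · rintro _ ⟨x, hx, rfl⟩
      obtain ⟨a, ha, b, hb, hab, xa, xb⟩ := hd x hx
      exact ⟨_, ⟨a, ha, rfl⟩, _, ⟨b, hb, rfl⟩, φ.injective.ne hab, φ.map_adj_iff.2 xa,
        φ.map_adj_iff.2 xb⟩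
  · rintro W H u v huv hG ⟨w, S, ⟨s0, hs0⟩, hv, hvS, hd⟩
    apply hG
    by_cases hc : u ∈ S ∧ v ∈ S
    · refine ⟨some w, {x | ∀ y, x = some y → y ∈ S}, ⟨some s0, ?_⟩, ?_, ?_, ?_⟩
      · intro y hy; rw [← Option.some_injective _ hy]; exact hs0
      · intro h; exact hv (h _ rfl)
      · rintro (_ | x) hx
        · rw [sub_some_none]
          rintro (rfl | rfl)
          · exact hv hc.1
          · exact hv hc.2
        · rw [sub_some_some]
          intro h
          exact hvS x (hx _ rfl) h.1
      · rintro (_ | x) hx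
        · refine ⟨some u, ?_, some v, ?_, ?_, ?_, ?_⟩
          · intro y hy; rw [← Option.some_injective _ hy]; exact hc.1
          · intro y hy; rw [← Option.some_injective _ hy]; exact hc.2
          · simpa using huv.ne
          · rw [sub_none_some]; exact Or.inl rfl
          · rw [sub_none_some]; exact Or.inr rfl
        · obtain ⟨a, ha, b, hb, hab, xa, xb⟩ := hd x (hx _ rfl)
          refine ⟨nbr u v x a, ?_, nbr u v x b, ?_, fun h => hab (nbr_inj h), nbr_adj xa,
            nbr_adj xb⟩
          · intro y hy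
            unfold nbr at hy
            split_ifs at hy
            rw [← Option.some_injective _ hy]; exact ha
          · intro y hy
            unfold nbr at hy
            split_ifs at hy
            rw [← Option.some_injective _ hy]; exact hb
    · have key : ∀ x ∈ S, ∀ y ∈ S, H.Adj x y → (subdivideEdge H u v).Adj (some x) (some y) := by
        intro x hx y hy hxy
        rw [sub_some_some]
        refine ⟨hxy, fun h => hc ?_⟩
        rw [Sym2.eq_iff] at h
        rcases h with h | h
        · rw [← h.1, ← h.2]; exact ⟨hx, hy⟩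
        · rw [← h.1, ← h.2]; exact ⟨hy, hx⟩
      refine ⟨some w, some '' S, ⟨some s0, ⟨s0, hs0, rfl⟩⟩, ?_, ?_, ?_⟩
      · rintro ⟨x, hx, h⟩
        rw [Option.some_injective _ h] at hx
        exact hv hx
      · rintro _ ⟨x, hx, rfl⟩
        rw [sub_some_some]
        exact fun h => hvS x hx h.1
      · rintro _ ⟨x, hx, rfl⟩
        obtain ⟨a, ha, b, hb, hab, xa, xb⟩ := hd x hx
        exact ⟨_, ⟨a, ha, rfl⟩, _, ⟨b, hb, rfl⟩, by simpa, key x hx a ha xa, key x hx b hb xb⟩

theorem npc_wall (n : ℕ) : ¬ PC _ (wall n)ᶜ := by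
  rintro ⟨v, S, ⟨s, hs⟩, hv, hvS, hd⟩
  have hS : ∀ s ∈ S, (wall n).Adj v s := by
    intro s hs
    have := hvS s hs
    rw [SimpleGraph.compl_adj] at this
    have hne : v ≠ s := fun h => hv (h ▸ hs)
    by_contra h'
    exact this ⟨hne, h'⟩
  obtain ⟨a, ha, b, hb, hab, sa, sb⟩ := hd s hs
  rw [SimpleGraph.compl_adj] at sa sb
  have hnab : ¬ (wall n).Adj a b := by
    intro hadj
    obtain ⟨p, hp, q, hq, hpq, ap, aq⟩ := hd a ha
    rw [SimpleGraph.compl_adj] at ap aq
    -- p, q, a are three distinct elements of S, and S has at most three elements s, a, b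
    have hmem : ∀ p ∈ S, p = s ∨ p = a ∨ p = b := by
      intro p hp
      have := wall_deg (hS s hs) (hS a ha) (hS b hb) (hS p hp)
      have h1 := sa.1
      have h2 := sb.1
      rcases this with h | h | h | h | h | h
      · exact absurd h h1
      · exact absurd h h2
      · exact Or.inl h.symm
      · exact absurd h hab
      · exact Or.inr (Or.inl h.symm)
      · exact Or.inr (Or.inr h.symm)
    rcases hmem p hp with rfl | rfl | rfl
    · rcases hmem q hq with rfl | rfl | rfl
      · exact hpq rfl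
      · exact aq.1 rfl
      · exact aq.2 hadj
    · exact ap.1 rfl
    · exact ap.2 hadj
  have e1 := hS s hs
  have e2 := hS a ha
  have e3 := hS b hb
  have h1 := sa.1
  have h2 := sb.1
  -- two of the three neighbours of v are in the triangle of v
  have key : ∀ x y, (wall n).Adj v x → (wall n).Adj v y → x ≠ y → WR v x → ¬ WR v y ∨ (wall n).Adj x y := by
    intro x y _ _ hxy hx
    by_cases hy : WR v y
    · exact Or.inr (hx.trans hy hxy).adj
    · exact Or.inl hy
  by_cases c1 : WR v s
  · by_cases c2 : WR v a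
    · exact sa.2 (c1.trans c2 h1).adj
    · by_cases c3 : WR v b
      · exact sb.2 (c1.trans c3 h2).adj
      · exact hab (wall_ext e2 e3 c2 c3)
  · by_cases c2 : WR v a
    · by_cases c3 : WR v b
      · exact hnab (c2.trans c3 hab).adj
      · exact h2 (wall_ext e1 e3 c1 c3)
    · exact h1 (wall_ext e1 e2 c1 c2)

/-! ### the unbounded side -/

theorem itm_of_unbounded {W : Type} {H : SimpleGraph W} (hb : BddItm H) {V : ℕ → Type}
    [∀ n, Finite (V n)] (fam : ∀ n, SimpleGraph (V n))
    (hu : ∀ c : ℕ, ∃ n, Nonempty (V n) ∧ ∀ k ≤ c, ¬ CwLE (fam n) k)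
    (hcw : ∀ (V : Type) [Finite V] [Nonempty V] (G : SimpleGraph V), CwLE G (cliqueWidth G)) :
    ∃ n, IsITM H (fam n) := by
  obtain ⟨c, hc⟩ := hb
  obtain ⟨n, hn, hk⟩ := hu c
  refine ⟨n, ?_⟩
  by_contra hno
  exact hk _ (hc (V n) (fam n) hno) (hcw (V n) (fam n))

end Pool.Agent.W124.ITM
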