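import Pool.Agent.W124.ITM.CKL
import Pool.Agent.W124.ITM.Classify

/-! Small configurations and degrees. -/

set_option autoImplicit false

namespace Pool.Agent.W124.ITM

open SimpleGraph Pool.Agent.H175R2 Finset Classical

variable {V : Type}

/-- no vertex has three neighbours -/
def D2 (G : SimpleGraph V) : Prop :=
  ∀ x a b c, G.Adj x a → G.Adj x b → G.Adj x c → a = b ∨ a = c ∨ b = c

theorem emb4 {T : SimpleGraph (Fin 4)} {G : SimpleGraph V} {a b c d : V} (ab : a ≠ b) (ac : a ≠ c)
    (ad : a ≠ d) (bc : b ≠ c) (bd : b ≠ d) (cd : c ≠ d)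
    (h01 : G.Adj a b ↔ T.Adj 0 1) (h02 : G.Adj a c ↔ T.Adj 0 2) (h03 : G.Adj a d ↔ T.Adj 0 3)
    (h12 : G.Adj b c ↔ T.Adj 1 2) (h13 : G.Adj b d ↔ T.Adj 1 3) (h23 : G.Adj c d ↔ T.Adj 2 3) :
    T.IsIndContained G := by
  refine ⟨⟨⟨![a, b, c, d], ?_⟩, ?_⟩⟩
  · have ba := ab.symm
    have ca := ac.symm
    have da := ad.symm
    have cb := bc.symm
    have db := bd.symm
    have dc := cd.symm
    clear h01 h02 h03 h12 h13 h23
    intro i j hij
    fin_cases i <;> fin_cases j <;> first | rfl | (exfalso; simp at hij; contradiction)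
  · intro i j
    show G.Adj (![a, b, c, d] i) (![a, b, c, d] j) ↔ T.Adj i j
    fin_cases i <;> fin_cases j
    · simp
    · simpa using h01
    · simpa using h02
    · simpa using h03
    · simpa [G.adj_comm b a, T.adj_comm 1 0] using h01
    · simp
    · simpa using h12
    · simpa using h13
    · simpa [G.adj_comm c a, T.adj_comm 2 0] using h02
    · simpa [G.adj_comm c b, T.adj_comm 2 1] using h12
    · simp
    · simpa using h23
    · simpa [G.adj_comm d a, T.adj_comm 3 0] using h03
    · simpa [G.adj_comm d b, T.adj_comm 3 1] using h13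
    · simpa [G.adj_comm d c, T.adj_comm 3 2] using h23
    · simp

theorem diamond_ind {G : SimpleGraph V} {a b c d : V} (ab : G.Adj a b) (ac : G.Adj a c)
    (ad : G.Adj a d) (bc : G.Adj b c) (bd : G.Adj b d) (cd : ¬ G.Adj c d) (ncd : c ≠ d) :
    IsITM diamond G := by
  apply IsITM.of_ind
  refine emb4 ab.ne ac.ne ad.ne bc.ne bd.ne ncd ?_ ?_ ?_ ?_ ?_ ?_ <;> rw [tgt2]
  · simpa [Tgt] using ab
  · simpa [Tgt] using ac
  · simpa [Tgt] using ad
  · simpa [Tgt] using bc
  · simpa [Tgt] using bd
  · simpa [Tgt] using cd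

theorem paw_ind {G : SimpleGraph V} {a b c d : V} (ab : G.Adj a b) (ac : G.Adj a c)
    (bc : G.Adj b c) (ad : G.Adj a d) (bd : ¬ G.Adj b d) (cd : ¬ G.Adj c d) :
    IsITM paw G := by
  have nbd : b ≠ d := by rintro rfl; exact cd bc.symm
  have ncd : c ≠ d := by rintro rfl; exact bd bc
  apply IsITM.of_ind
  refine emb4 ab.ne ac.ne ad.ne bc.ne nbd ncd ?_ ?_ ?_ ?_ ?_ ?_ <;> rw [tgt1]
  · simpa [Tgt] using ab
  · simpa [Tgt] using ac
  · simpa [Tgt] using ad
  · simpa [Tgt] using bc
  · simpa [Tgt] using bd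
  · simpa [Tgt] using cd

/-- an induced four-cycle `a b c d` and a vertex `p` whose only neighbour on it is `a` -/
theorem lollipop {G : SimpleGraph V} {a b c d p : V} (ab : G.Adj a b) (bc : G.Adj b c)
    (cd : G.Adj c d) (da : G.Adj d a) (ac : ¬ G.Adj a c) (bd : ¬ G.Adj b d) (nbd : b ≠ d)
    (pa : G.Adj p a) (pb : ¬ G.Adj p b) (pc : ¬ G.Adj p c) (pd : ¬ G.Adj p d) :
    IsITM paw G := by
  have nac : a ≠ c := by rintro rfl; exact pc pa
  have npb : p ≠ b := by rintro rfl; exact pc bc
  have npc : p ≠ c := by rintro rfl; exact pd cd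
  have npd : p ≠ d := by rintro rfl; exact pc cd.symm
  have h12 : paw.Adj 1 2 := by rw [tgt1]; simp [Tgt]
  refine ⟨Option (Fin 4), subdivideEdge paw 1 2, IsSubdivision.step h12 (IsSubdivision.iso Iso.refl),
    ⟨⟨⟨fun x => x.elim c ![a, b, d, p], ?_⟩, ?_⟩⟩⟩
  · have nab := ab.ne
    have nba := ab.ne.symm
    have nbc := bc.ne
    have ncb := bc.ne.symm
    have ncd := cd.ne
    have ndc := cd.ne.symm
    have nda := da.ne
    have nad := da.ne.symm
    have nca := nac.symm
    have ndb := nbd.symm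
    have npa := pa.ne
    have nap := pa.ne.symm
    have nbp := npb.symm
    have ncp := npc.symm
    have ndp := npd.symm
    clear h12 ab bc cd da ac bd pa pb pc pd
    rintro (_ | i) (_ | j) hij
    · rfl
    · fin_cases j <;> (exfalso; simp at hij; contradiction)
    · fin_cases i <;> (exfalso; simp at hij; contradiction)
    · fin_cases i <;> fin_cases j <;> first | rfl | (exfalso; simp at hij; contradiction)
  · have sw : ∀ x y : V, G.Adj x y → G.Adj y x := fun x y h => h.symm
    have sw' : ∀ x y : V, ¬ G.Adj x y → ¬ G.Adj y x := fun x y h h' => h h'.symm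
    rintro (_ | i) (_ | j)
    · show G.Adj c c ↔ _
      simp
    · show G.Adj c (![a, b, d, p] j) ↔ _
      rw [sub_none_some]
      fin_cases j
      · simpa using sw' _ _ ac
      · simpa using sw _ _ bc
      · simpa using cd
      · simpa using sw' _ _ pc
    · show G.Adj (![a, b, d, p] i) c ↔ _
      rw [sub_some_none]
      fin_cases i
      · simpa using ac
      · simpa using bc
      · simpa using sw _ _ cd
      · simpa using pc
    · show G.Adj (![a, b, d, p] i) (![a, b, d, p] j) ↔ _
      rw [sub_some_some, tgt1]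
      have e : ∀ i j : Fin 4, s(i, j) = s(1, 2) ↔ ((i = 1 ∧ j = 2) ∨ (i = 2 ∧ j = 1)) := by
        intro i j; rw [Sym2.eq_iff]
      rw [ne_eq, e]
      fin_cases i <;> fin_cases j
      · simp [Tgt]
      · simpa [Tgt] using ab
      · simpa [Tgt] using sw _ _ da
      · simpa [Tgt] using sw _ _ pa
      · simpa [Tgt] using sw _ _ ab
      · simp [Tgt]
      · simpa [Tgt] using bd
      · simpa [Tgt] using sw' _ _ pb
      · simpa [Tgt] using da
      · simpa [Tgt] using sw' _ _ bd
      · simp [Tgt]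
      · simpa [Tgt] using sw' _ _ pd
      · simpa [Tgt] using pa
      · simpa [Tgt] using pb
      · simpa [Tgt] using pd
      · simp [Tgt]

theorem d2_small [Fintype V] (G : SimpleGraph V) (h : Fintype.card V ≤ 3) : D2 G := by
  intro x a b c ha hb hc
  by_contra hcon
  push Not at hcon
  obtain ⟨hab, hac, hbc⟩ := hcon
  have : ({x, a, b, c} : Finset V).card = 4 := by
    rw [card_eq_four]
    exact ⟨x, a, b, c, ha.ne, hb.ne, hc.ne, hab, hac, hbc, rfl⟩
  have h2 := card_le_card (subset_univ ({x, a, b, c} : Finset V))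
  rw [this, card_univ] at h2
  omega

/-- degree condition and suppression -/
theorem d2_supp [Fintype V] {G : SimpleGraph V} {w u v : V}
    (hd : Deg2 G w u v) (huv : ¬ G.Adj u v)
    (h : D2 ((addE G u v).comap (emb (univ.erase w)))) : D2 G := by
  obtain ⟨hne, hwu, hwv, hw⟩ := hd
  intro x a b c ha hb hc
  by_cases hx : x = w
  · subst hx
    rcases hw a ha with rfl | rfl <;> rcases hw b hb with rfl | rfl <;>
      rcases hw c hc with rfl | rfl <;> tauto
  · -- replace `w` by the other neighbour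
    have key : ∀ x a b c : V, x ≠ w → a ≠ w → b ≠ w → c ≠ w → (addE G u v).Adj x a →
        (addE G u v).Adj x b → (addE G u v).Adj x c → a = b ∨ a = c ∨ b = c := by
      intro x a b c hx ha hb hc xa xb xc
      have := h (mkS x (mem_erase.2 ⟨hx, mem_univ _⟩)) (mkS a (mem_erase.2 ⟨ha, mem_univ _⟩))
        (mkS b (mem_erase.2 ⟨hb, mem_univ _⟩)) (mkS c (mem_erase.2 ⟨hc, mem_univ _⟩)) xa xb xc
      rcases this with h | h | h
      · exact Or.inl (congrArg (emb _) h)
      · exact Or.inr (Or.inl (congrArg (emb _) h))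
      · exact Or.inr (Or.inr (congrArg (emb _) h))
    have le : ∀ {x y : V}, G.Adj x y → (addE G u v).Adj x y := fun {x y} h => le_addE G hne h
    have uv' : (addE G u v).Adj u v := by rw [addE_adj hne]; exact Or.inr rfl
    -- if `w` is a neighbour of `x`
    have key2 : ∀ b c : V, G.Adj x w → G.Adj x b → G.Adj x c → b ≠ w → c ≠ w → b = c := by
      intro b c hxw hb hc hbw hcw
      rcases hw x hxw.symm with rfl | rfl
      · rcases key x v b c hx hwv.ne.symm hbw hcw uv' (le hb) (le hc) with h | h | h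
        · exact absurd (h ▸ hb) huv
        · exact absurd (h ▸ hc) huv
        · exact h
      · rcases key x u b c hx hwu.ne.symm hbw hcw uv'.symm (le hb) (le hc) with h | h | h
        · exact absurd (h ▸ hb).symm huv
        · exact absurd (h ▸ hc).symm huv
        · exact h
    by_cases ea : a = w
    · by_cases eb : b = w
      · exact Or.inl (ea.trans eb.symm)
      · by_cases ec : c = w
        · exact Or.inr (Or.inl (ea.trans ec.symm))
        · exact Or.inr (Or.inr (key2 b c (ea ▸ ha) hb hc eb ec))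
    · by_cases eb : b = w
      · by_cases ec : c = w
        · exact Or.inr (Or.inr (eb.trans ec.symm))
        · exact Or.inr (Or.inl (key2 a c (eb ▸ hb) ha hc ea ec))
      · by_cases ec : c = w
        · exact Or.inl (key2 a b (ec ▸ hc) ha hb ea eb)
        · exact key x a b c hx ea eb ec (le ha) (le hb) (le hc)

theorem comap_ind {U : Type} {G : SimpleGraph V} (e : U ↪ V) : (G.comap e).IsIndContained G :=
  ⟨⟨e, Iff.rfl⟩⟩

/-- deg two or three distinct neighbours -/
theorem deg_cases [Fintype V] {G : SimpleGraph V} (hG : TwoConn G) (x : V) :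
    (∃ u v, Deg2 G x u v) ∨ ∃ a b c, a ≠ b ∧ a ≠ c ∧ b ≠ c ∧ G.Adj x a ∧ G.Adj x b ∧ G.Adj x c := by
  obtain ⟨u, v, huv, hu, hv⟩ := two_nbrs hG x
  by_cases h : ∀ y, G.Adj x y → y = u ∨ y = v
  · exact Or.inl ⟨u, v, huv, hu, hv, h⟩
  · push Not at h
    obtain ⟨y, hy, hyu, hyv⟩ := h
    exact Or.inr ⟨u, v, y, huv, hyu.symm, hyv.symm, hu, hv, hy⟩

theorem exists_other [Fintype V] (h : 4 ≤ Fintype.card V) (a b c : V) :
    ∃ x, x ≠ a ∧ x ≠ b ∧ x ≠ c := by
  by_contra hcon
  push Not at hcon
  have : (univ : Finset V) ⊆ {a, b, c} := by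
    intro x _
    simp only [mem_insert, mem_singleton]
    by_contra h
    push Not at h
    exact h.2.2 (hcon x h.1 h.2.1)
  have h2 := (card_le_card this).trans card_le_three
  rw [card_univ] at h2
  omega

end Pool.Agent.W124.ITM
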