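import Pool.Agent.W124.ITM.Basic
import Pool.Agent.H175R2.Blocks

/-! Suppressing a vertex of degree two. -/

set_option autoImplicit false

namespace Pool.Agent.W124.ITM

open SimpleGraph Pool.Agent.H175R2 Finset Classical

variable {W U V : Type}

/-- `w` has exactly the two neighbours `u` and `v` -/
def Deg2 (G : SimpleGraph V) (w u v : V) : Prop :=
  u ≠ v ∧ G.Adj w u ∧ G.Adj w v ∧ ∀ y, G.Adj w y → y = u ∨ y = v

/-- the edge `uv` added -/
def addE (G : SimpleGraph V) (u v : V) : SimpleGraph V :=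
  SimpleGraph.fromRel (fun x y => G.Adj x y ∨ (x = u ∧ y = v))

theorem addE_adj {G : SimpleGraph V} {u v x y : V} (huv : u ≠ v) :
    (addE G u v).Adj x y ↔ G.Adj x y ∨ s(x, y) = s(u, v) := by
  unfold addE
  rw [SimpleGraph.fromRel_adj, Sym2.eq_iff]
  constructor
  · rintro ⟨h, (h1 | h1) | (h1 | h1)⟩
    · exact Or.inl h1
    · exact Or.inr (Or.inl h1)
    · exact Or.inl h1.symm
    · exact Or.inr (Or.inr ⟨h1.2, h1.1⟩)
  · rintro (h | ⟨rfl, rfl⟩ | ⟨rfl, rfl⟩)
    · exact ⟨h.ne, Or.inl (Or.inl h)⟩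
    · exact ⟨huv, Or.inl (Or.inr ⟨rfl, rfl⟩)⟩
    · exact ⟨huv.symm, Or.inr (Or.inr ⟨rfl, rfl⟩)⟩

theorem le_addE (G : SimpleGraph V) {u v : V} (huv : u ≠ v) : G ≤ addE G u v := by
  intro x y h
  rw [addE_adj huv]; exact Or.inl h

/-- the graph with the vertex `w` suppressed -/
theorem itm_supp [Fintype V] {H : SimpleGraph W} {G : SimpleGraph V} {w u v : V}
    (hd : Deg2 G w u v) (huv : ¬ G.Adj u v)
    (h : IsITM H ((addE G u v).comap (emb (univ.erase w)))) : IsITM H G := by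
  obtain ⟨U, K, hK, ⟨φ⟩⟩ := h
  obtain ⟨hne, hwu, hwv, hw⟩ := hd
  obtain ⟨ψ, hψ, hinj, hadj⟩ : ∃ ψ : U → V, (∀ x, ψ x ≠ w) ∧ (∀ x y, ψ x = ψ y → x = y) ∧
      ∀ x y, K.Adj x y ↔ (G.Adj (ψ x) (ψ y) ∨ s(ψ x, ψ y) = s(u, v)) := by
    refine ⟨fun x => emb _ (φ x), fun x => (mem_erase.1 (emb_mem (φ x))).1, fun x y h =>
      φ.injective ((emb _).injective h), fun x y => ?_⟩
    rw [← φ.map_adj_iff, SimpleGraph.comap_adj, addE_adj hne]
  clear φ
  by_cases hc : ∃ a b, ψ a = u ∧ ψ b = v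
  · obtain ⟨a, b, rfl, rfl⟩ := hc
    have hab : K.Adj a b := by
      rw [hadj]; exact Or.inr rfl
    refine ⟨Option U, subdivideEdge K a b, hK.snoc hab, ⟨⟨⟨fun x => x.elim w ψ,
      ?_⟩, ?_⟩⟩⟩
    · rintro (_ | x) (_ | y) h
      · rfl
      · exact absurd h.symm (hψ y)
      · exact absurd h (hψ x)
      · exact congrArg some (hinj x y h)
    · rintro (_ | x) (_ | y)
      · simp
      · show G.Adj w (ψ y) ↔ _
        rw [sub_none_some]
        constructor
        · intro h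
          rcases hw _ h with h | h
          · exact Or.inl (hinj _ _ h)
          · exact Or.inr (hinj _ _ h)
        · rintro (rfl | rfl)
          · exact hwu
          · exact hwv
      · show G.Adj (ψ x) w ↔ _
        rw [sub_some_none, SimpleGraph.adj_comm]
        constructor
        · intro h
          rcases hw _ h with h | h
          · exact Or.inl (hinj _ _ h)
          · exact Or.inr (hinj _ _ h)
        · rintro (rfl | rfl)
          · exact hwu
          · exact hwv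
      · show G.Adj (ψ x) (ψ y) ↔ _
        rw [sub_some_some, hadj]
        have e : s(x, y) = s(a, b) ↔ s(ψ x, ψ y) = s(ψ a, ψ b) := by
          rw [Sym2.eq_iff, Sym2.eq_iff]
          constructor
          · rintro (⟨rfl, rfl⟩ | ⟨rfl, rfl⟩)
            · exact Or.inl ⟨rfl, rfl⟩
            · exact Or.inr ⟨rfl, rfl⟩
          · rintro (⟨h1, h2⟩ | ⟨h1, h2⟩)
            · exact Or.inl ⟨hinj _ _ h1, hinj _ _ h2⟩
            · exact Or.inr ⟨hinj _ _ h1, hinj _ _ h2⟩
        rw [ne_eq, e]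
        constructor
        · intro h
          refine ⟨Or.inl h, fun h' => ?_⟩
          rw [Sym2.eq_iff] at h'
          rcases h' with ⟨h1, h2⟩ | ⟨h1, h2⟩
          · rw [h1, h2] at h; exact huv h
          · rw [h1, h2] at h; exact huv h.symm
        · rintro ⟨h | h, h'⟩
          · exact h
          · exact absurd h h'
  · refine ⟨U, K, hK, ⟨⟨⟨ψ, fun x y h => hinj x y h⟩, ?_⟩⟩⟩
    intro x y
    show G.Adj (ψ x) (ψ y) ↔ _
    rw [hadj]
    constructor
    · exact Or.inl
    · rintro (h | h)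
      · exact h
      · exfalso
        rw [Sym2.eq_iff] at h
        rcases h with h | h
        · exact hc ⟨x, y, h⟩
        · exact hc ⟨y, x, h.2, h.1⟩

/-- deleting a vertex whose neighbours are pairwise adjacent keeps a set connected -/
theorem cn_del {G G2 : SimpleGraph V} {w : V} {S : Finset V} (hc : Cn G (insert w S)) (hw : w ∉ S)
    (hS : S.Nonempty) (hle : G ≤ G2)
    (h : ∀ a ∈ S, ∀ b ∈ S, G.Adj w a → G.Adj w b → a ≠ b → G2.Adj a b) : Cn G2 S := by
  refine ⟨hS, fun T hT hn hn' => ?_⟩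
  by_cases h1 : ∃ a ∈ T, G.Adj w a
  · by_cases h2 : ∃ b ∈ S \ T, G.Adj w b
    · obtain ⟨a, ha, hwa⟩ := h1
      obtain ⟨b, hb, hwb⟩ := h2
      refine ⟨a, ha, b, hb, h a (hT ha) b (mem_sdiff.1 hb).1 hwa hwb ?_⟩
      rintro rfl
      exact (mem_sdiff.1 hb).2 ha
    · push Not at h2
      obtain ⟨x, hx, y, hy, hxy⟩ := hc.2 (insert w T) (insert_subset_insert _ hT)
        ⟨w, mem_insert_self _ _⟩ (by
          obtain ⟨z, hz⟩ := hn'
          obtain ⟨hz1, hz2⟩ := mem_sdiff.1 hz
          refine ⟨z, mem_sdiff.2 ⟨mem_insert_of_mem hz1, ?_⟩⟩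
          rw [mem_insert, not_or]
          exact ⟨fun h => hw (h ▸ hz1), hz2⟩)
      obtain ⟨hy1, hy2⟩ := mem_sdiff.1 hy
      rw [mem_insert, not_or] at hy2
      have hyS : y ∈ S := (mem_insert.1 hy1).resolve_left hy2.1
      have hy' : y ∈ S \ T := mem_sdiff.2 ⟨hyS, hy2.2⟩
      rcases mem_insert.1 hx with rfl | hx
      · exact absurd hxy (h2 y hy')
      · exact ⟨x, hx, y, hy', hle hxy⟩
  · push Not at h1
    obtain ⟨x, hx, y, hy, hxy⟩ := hc.2 T (hT.trans (subset_insert _ _)) hn (by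
      obtain ⟨z, hz⟩ := hn'
      obtain ⟨hz1, hz2⟩ := mem_sdiff.1 hz
      exact ⟨z, mem_sdiff.2 ⟨mem_insert_of_mem hz1, hz2⟩⟩)
    obtain ⟨hy1, hy2⟩ := mem_sdiff.1 hy
    rcases mem_insert.1 hy1 with rfl | hy1
    · exact absurd hxy.symm (h1 x hx)
    · exact ⟨x, hx, y, mem_sdiff.2 ⟨hy1, hy2⟩, hle hxy⟩

theorem cn_mono {G G2 : SimpleGraph V} {S : Finset V} (hc : Cn G S) (hle : G ≤ G2) : Cn G2 S := by
  refine ⟨hc.1, fun T hT hn hn' => ?_⟩
  obtain ⟨x, hx, y, hy, hxy⟩ := hc.2 T hT hn hn'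
  exact ⟨x, hx, y, hy, hle hxy⟩

theorem twoConn_comap [Fintype V] {G : SimpleGraph V} {w : V}
    (h4 : 4 ≤ Fintype.card V) (h1 : Cn G (univ.erase w))
    (h2 : ∀ x, x ≠ w → Cn G ((univ.erase w).erase x)) :
    TwoConn (G.comap (emb (univ.erase w))) := by
  refine ⟨?_, ?_, ?_⟩
  · rw [card_sub, card_erase_of_mem (mem_univ _), card_univ]; omega
  · apply Cn.comap; rw [map_univ_sub]; exact h1
  · intro x'
    obtain ⟨x, hx, rfl⟩ : ∃ (x : V) (hx : x ∈ univ.erase w), x' = mkS x hx :=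
      ⟨emb _ x', emb_mem x', rfl⟩
    apply Cn.comap
    have e : ((univ : Finset (Pool.Agent.H175R2.Sub (univ.erase w))).erase (mkS x hx)).map
        (emb (univ.erase w)) = (univ.erase w).erase x := by
      ext z
      rw [mem_map, mem_erase]
      constructor
      · rintro ⟨u, h1, rfl⟩
        rw [mem_erase] at h1
        exact ⟨fun h => h1.1 (Subtype.ext h), emb_mem u⟩
      · rintro ⟨h1, h2⟩
        refine ⟨mkS z h2, ?_, rfl⟩
        rw [mem_erase]
        exact ⟨fun h => h1 (congrArg (emb _) h), mem_univ _⟩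
    rw [e]
    exact h2 x (mem_erase.1 hx).1

/-- deleting a vertex (the neighbours are pairwise adjacent in the bigger graph `G2`) -/
theorem twoConn_del [Fintype V] {G G2 : SimpleGraph V} (hG : TwoConn G) {w : V}
    (h4 : 4 ≤ Fintype.card V) (hle : G ≤ G2)
    (h : ∀ a b, G.Adj w a → G.Adj w b → a ≠ b → G2.Adj a b) :
    TwoConn (G2.comap (emb (univ.erase w))) := by
  refine twoConn_comap h4 (cn_mono (hG.del w) hle) ?_
  intro x hxw
  have hx : x ∈ univ.erase w := mem_erase.2 ⟨hxw, mem_univ _⟩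
  have e2 : insert w ((univ.erase w).erase x) = univ.erase x := by
    ext z
    simp only [mem_insert, mem_erase, mem_univ, and_true]
    constructor
    · rintro (rfl | h)
      · exact hxw.symm
      · exact h.1
    · intro h
      by_cases hz : z = w
      · exact Or.inl hz
      · exact Or.inr ⟨h, hz⟩
  refine cn_del (G := G) (by rw [e2]; exact hG.del x) (by simp) ?_ hle
    (fun a _ b _ ha hb hab => h a b ha hb hab)
  rw [← card_pos, card_erase_of_mem hx, card_erase_of_mem (mem_univ _), card_univ]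
  omega

/-- a 2-connected graph has minimum degree at least two -/
theorem two_nbrs [Fintype V] {G : SimpleGraph V} (hG : TwoConn G) (w : V) :
    ∃ u v, u ≠ v ∧ G.Adj w u ∧ G.Adj w v := by
  have h3 := hG.card
  obtain ⟨x, hx, u, hu, hwu⟩ := hG.conn.2 {w} (subset_univ _) (by simp) (by
    rw [← card_pos, card_sdiff_of_subset (subset_univ _), card_univ, card_singleton]; omega)
  rw [mem_singleton] at hx
  subst hx
  have hux : u ≠ x := hwu.ne.symm
  obtain ⟨y, hy, v, hv, hwv⟩ := (hG.del u).2 {x} (by simpa using hux.symm) (by simp) (by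
    rw [← card_pos, card_sdiff_of_subset (by simpa using hux.symm), card_erase_of_mem (mem_univ _),
      card_univ, card_singleton]; omega)
  rw [mem_singleton] at hy
  subst hy
  have := (mem_erase.1 (mem_sdiff.1 hv).1).1
  exact ⟨u, v, this.symm, hwu, hwv⟩

end Pool.Agent.W124.ITM
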